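import Pool.Agent.L0h23.SZ.Fin
import Pool.Agent.L0h4.TC.Zd

/-!
# `exists_shaZ` with the definitions of `Pool/Agent/L0h4/TC/Zd.lean`
-/

set_option autoImplicit false

namespace Pool.Agent.L0h23.SZ.Ad

open NumberField IsDedekindDomain WeierstrassCurve
open Pool.Agent.Y698.SG.Cv (WF)
open Pool.Agent.TH841.NF.D (Sha)
open Pool.Agent.L0h4.TC (SqZ PtZ LocZ)

lemma sq_iff {L : Type} [Field L] {a b : ℤ} {u v : L} :
    Pool.Agent.L0h23.SZ.SqZ L a b u v ↔ SqZ L a b u v := Iff.rfl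

lemma loc_iff {L : Type} [Field L] {a b : ℤ} {u v : L} :
    Pool.Agent.L0h23.SZ.LocZ L a b u v ↔ LocZ L a b u v := Iff.rfl

theorem exists_shaZ {K : Type} [Field K] [NumberField K] {a b : ℤ} (hb : b ≠ 0)
    (hab : a ^ 2 - 4 * b < 0) (nb : ¬ IsSquare (b : K)) (nab : ¬ IsSquare ((a : K) ^ 2 - 4 * b))
    (hf : Finite (WF K a b).toAffine.Point) {u v : K} (hN : u ^ 2 - a * u * v + b * v ^ 2 ≠ 0)
    (hl : ∀ w : HeightOneSpectrum (𝓞 K), LocZ (w.adicCompletion K) a b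
      (algebraMap K (w.adicCompletion K) u) (algebraMap K (w.adicCompletion K) v))
    (n1 : ¬ SqZ K a b u v) (n2 : ¬ SqZ K a b (b * v) (a * v - u)) :
    ∃ x : Sha (WF K a b), x ≠ 0 ∧ x + x = 0 :=
  Pool.Agent.L0h23.SZ.exists_shaZ hb hab nb nab hf hN (fun w => loc_iff.2 (hl w))
    (fun h => n1 (sq_iff.1 h)) (fun h => n2 (sq_iff.1 h))

end Pool.Agent.L0h23.SZ.Ad
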