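import Pool.Agent.L0h23.SZ.Loz
import Pool.Agent.Y945.SG.Cob
import Pool.Agent.Y542.SGT.Tor

/-!
# General 2-coverings of `y² = x³ + a x² + b x`: coboundaries
-/

set_option autoImplicit false
set_option linter.unusedSectionVars false

namespace Pool.Agent.L0h23.SZ

open WeierstrassCurve Pool.Agent.TH841.SH.D Pool.Agent.Y698.SG.Cv
open Pool.Agent.Y945.SG (fixm)

section
variable {K : Type} [Field K] [CharZero K] {a b : ℤ} {u0 v0 : K}
  {e1 e2 s1 s2 : AlgebraicClosure K} {hb : b ≠ 0} {hab : a ^ 2 - 4 * b ≠ 0}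

/-- descent of square roots -/
lemma desc (h : Rt (AlgebraicClosure K) a b e1 e2) (hne : e1 ≠ e2) {w1 w2 : AlgebraicClosure K}
    (q1 : w1 ^ 2 = algebraMap K _ u0 + algebraMap K _ v0 * e1)
    (q2 : w2 ^ 2 = algebraMap K _ u0 + algebraMap K _ v0 * e2)
    (hσ : ∀ σ : Gal K, (σ e1 = e1 ∧ σ e2 = e2 ∧ σ w1 = w1 ∧ σ w2 = w2) ∨
      (σ e1 = e2 ∧ σ e2 = e1 ∧ σ w1 = w2 ∧ σ w2 = w1)) : SqZ K a b u0 v0 := by
  have hd : e1 - e2 ≠ 0 := sub_ne_zero.2 hne
  obtain ⟨k, hk⟩ : ∃ k : K, algebraMap K (AlgebraicClosure K) k = (w1 - w2) / (e1 - e2) := by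
    apply fixm
    intro σ
    rcases hσ σ with ⟨h1, h2, h3, h4⟩ | ⟨h1, h2, h3, h4⟩
    · rw [map_div₀, map_sub, map_sub, h1, h2, h3, h4]
    · rw [map_div₀, map_sub, map_sub, h1, h2, h3, h4, ← neg_sub w1, ← neg_sub e1, neg_div_neg_eq]
  have hk' : algebraMap K (AlgebraicClosure K) k * (e1 - e2) = w1 - w2 := by
    rw [hk, div_mul_cancel₀ _ hd]
  obtain ⟨g, hg⟩ : ∃ g : K, algebraMap K (AlgebraicClosure K) g =
      w1 - algebraMap K (AlgebraicClosure K) k * e1 := by
    apply fixm
    intro σ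
    rcases hσ σ with ⟨h1, h2, h3, h4⟩ | ⟨h1, h2, h3, h4⟩
    · rw [map_sub, map_mul, σ.commutes, h1, h3]
    · rw [map_sub, map_mul, σ.commutes, h1, h3]
      linear_combination hk'
  have t1 := rt_sq h
  have t2 := rt_sq h.symm
  have c1 : w1 = algebraMap K (AlgebraicClosure K) g + algebraMap K (AlgebraicClosure K) k * e1 := by
    rw [hg]; ring
  have c2 : w2 = algebraMap K (AlgebraicClosure K) g + algebraMap K (AlgebraicClosure K) k * e2 := by
    rw [hg]
    linear_combination hk'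
  rw [c1] at q1
  rw [c2] at q2
  have ev : algebraMap K (AlgebraicClosure K) v0 =
      algebraMap K (AlgebraicClosure K) (2 * g * k - a * k ^ 2) := by
    apply mul_right_cancel₀ hd
    simp only [map_sub, map_mul, map_pow, map_intCast, map_ofNat]
    linear_combination -q1 + q2 + (algebraMap K (AlgebraicClosure K) k) ^ 2 * t1 -
      (algebraMap K (AlgebraicClosure K) k) ^ 2 * t2
  have eu : algebraMap K (AlgebraicClosure K) u0 =
      algebraMap K (AlgebraicClosure K) (g ^ 2 - b * k ^ 2) := by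
    simp only [map_sub, map_mul, map_pow, map_intCast, map_ofNat] at ev ⊢
    linear_combination -q1 + (algebraMap K (AlgebraicClosure K) k) ^ 2 * t1 - e1 * ev
  exact ⟨g, k, (algebraMap K (AlgebraicClosure K)).injective eu,
    (algebraMap K (AlgebraicClosure K)).injective ev⟩

/-- the points over the base field -/
lemma desc_pt (hb : b ≠ 0) (hab : a ^ 2 - 4 * b ≠ 0) {P : Pt (WF K a b) (AlgebraicClosure K)}
    (hP : ∀ σ : Gal K, act (WF K a b) σ.toAlgHom P = P) :
    ∃ Q : Pt (WF K a b) K, act (WF K a b) (Algebra.ofId K (AlgebraicClosure K)) Q = P := by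
  rcases PA_cases hb hab P with rfl | ⟨x, y, h, rfl⟩
  · exact ⟨0, map_zero _⟩
  · have h1 : ∀ σ : Gal K, σ x = x ∧ σ y = y := by
      intro σ
      have h2 := hP σ
      rw [act_PA] at h2
      exact PA_inj h2
    obtain ⟨x0, hx0⟩ := fixm x fun σ => (h1 σ).1
    obtain ⟨y0, hy0⟩ := fixm y fun σ => (h1 σ).2
    have h2 : y0 ^ 2 = x0 ^ 3 + ((a : ℤ) : K) * x0 ^ 2 + ((b : ℤ) : K) * x0 := by
      apply (algebraMap K (AlgebraicClosure K)).injective
      simp only [map_add, map_mul, map_pow, map_intCast, hx0, hy0]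
      exact h
    refine ⟨PA K hb hab x0 y0 h2, ?_⟩
    rw [act_PA]
    exact PA_congr hx0 hy0

lemma act_ofId (hb : b ≠ 0) (hab : a ^ 2 - 4 * b ≠ 0) (σ : Gal K) (R : Pt (WF K a b) K) :
    act (WF K a b) σ.toAlgHom (act (WF K a b) (Algebra.ofId K (AlgebraicClosure K)) R) =
      act (WF K a b) (Algebra.ofId K (AlgebraicClosure K)) R := by
  rcases PA_cases hb hab R with rfl | ⟨x, y, h, rfl⟩
  · rw [map_zero, map_zero]
  · rw [act_PA, act_PA]
    exact PA_congr (σ.commutes x) (σ.commutes y)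

/-- halving the points over the base field -/
lemma halfK (hb : b ≠ 0) (hab : a ^ 2 - 4 * b ≠ 0) (nb : ¬ IsSquare (b : K))
    (nab : ¬ IsSquare ((a : K) ^ 2 - 4 * b)) (hf : Finite (WF K a b).toAffine.Point)
    (Q : Pt (WF K a b) K) : ∃ R : Pt (WF K a b) K, Q = R + R ∨
      Q = TO K a b K hb hab + (R + R) := by
  have hb' : (b : K) ≠ 0 := by exact_mod_cast hb
  have hab' : (a : K) ^ 2 - 4 * b ≠ 0 := by exact_mod_cast hab
  exact @Pool.Agent.Y542.SGT.half K _ _ (Classical.decEq K) (a : K) (b : K) hb' hab' nb nab hf Q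

lemma TO_ne {L : Type} [Field L] [Algebra K L] : TO K a b L hb hab ≠ 0 := PA_ne

lemma T1_ne {L : Type} [Field L] [Algebra K L] {e1 e2 : L} (h : Rt L a b e1 e2) :
    T1 K hb hab h ≠ 0 := PA_ne

/-- the signs are determined by the cocycle -/
lemma sgn_zero {L : Type} [Field L] [Algebra K L] {e1 e2 : L} (h : Rt L a b e1 e2) {m n : ℤ}
    (hm : m = 1 ∨ m = -1) (hn : n = 1 ∨ n = -1)
    (h0 : FT (T1 K hb hab h.symm) m + FT (T1 K hb hab h) n = 0) : m = 1 ∧ n = 1 := by
  rcases hm with rfl | rfl <;> rcases hn with rfl | rfl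
  · exact ⟨rfl, rfl⟩
  · rw [FT_one, FT_neg, zero_add] at h0
    exact absurd h0 (T1_ne h)
  · rw [FT_one, FT_neg, add_zero] at h0
    exact absurd h0 (T1_ne h.symm)
  · rw [FT_neg, FT_neg, T1_T2] at h0
    exact absurd h0 TO_ne

lemma sgn_neg {L : Type} [Field L] [Algebra K L] {e1 e2 : L} (h : Rt L a b e1 e2) {m n : ℤ}
    (hm : m = 1 ∨ m = -1) (hn : n = 1 ∨ n = -1)
    (h0 : FT (T1 K hb hab h.symm) m + FT (T1 K hb hab h) n =
      T1 K hb hab h.symm + T1 K hb hab h) : m = -1 ∧ n = -1 := by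
  rcases hm with rfl | rfl <;> rcases hn with rfl | rfl
  · rw [FT_one, FT_one, add_zero, T1_T2] at h0
    exact absurd h0.symm TO_ne
  · rw [FT_one, FT_neg, zero_add] at h0
    exact absurd (right_eq_add.1 h0) (T1_ne h.symm)
  · rw [FT_one, FT_neg, add_zero] at h0
    exact absurd (left_eq_add.1 h0) (T1_ne h)
  · exact ⟨rfl, rfl⟩

/-- the case of the points of order two -/
lemma cob_two (h : Rs (AlgebraicClosure K) a b (algebraMap K _ u0) (algebraMap K _ v0) e1 e2 s1 s2)
    {κ : ℤ} (hκ : κ = 1 ∨ κ = -1)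
    (hσ : ∀ σ : Gal K, ∀ m n : ℤ, (m = 1 ∨ m = -1) → (n = 1 ∨ n = -1) → Fx e1 e2 s1 s2 σ m n →
      (σ e1 = e1 → m = 1 ∧ n = 1) ∧ (σ e1 = e2 → m = κ ∧ n = κ)) : SqZ K a b u0 v0 := by
  have hk2 : ((κ : ℤ) : AlgebraicClosure K) * κ = 1 := by
    rcases hκ with rfl | rfl <;> norm_num
  refine desc (w1 := s1) (w2 := κ * s2) h.rt h.ne h.q1 ?_ ?_
  · rw [mul_pow, h.q2, pow_two, hk2, one_mul]
  · intro σ
    obtain ⟨m, n, hm, hn, hF⟩ := h.fx (σ : AlgebraicClosure K →+* AlgebraicClosure K)
      (σ.commutes u0) (σ.commutes v0)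
    have hF : Fx e1 e2 s1 s2 σ m n := hF
    have hint : ∀ k : ℤ, σ ((k : ℤ) : AlgebraicClosure K) = (k : AlgebraicClosure K) :=
      fun k => map_intCast σ k
    obtain ⟨c1, c2⟩ := hσ σ m n hm hn hF
    rcases hF with ⟨f1, f2, f3, f4⟩ | ⟨f1, f2, f3, f4⟩
    · left
      obtain ⟨rfl, rfl⟩ := c1 f1
      refine ⟨f1, f2, ?_, ?_⟩
      · rw [f3, Int.cast_one, one_mul]
      · rw [map_mul, hint, f4, Int.cast_one, one_mul]
    · right
      obtain ⟨rfl, rfl⟩ := c2 f1
      refine ⟨f1, f2, f4, ?_⟩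
      rw [map_mul, hint, f3, ← mul_assoc, hk2, one_mul]

/-- the case of the halves of `(0, 0)` -/
lemma cob_half (h : Rs (AlgebraicClosure K) a b (algebraMap K _ u0) (algebraMap K _ v0) e1 e2 s1 s2)
    {P : Pt (WF K a b) (AlgebraicClosure K)} (hP : P + P = TO K a b (AlgebraicClosure K) hb hab)
    (hc : ∀ σ : Gal K, cz hb hab h σ = act (WF K a b) σ.toAlgHom P - P) :
    SqZ K a b (b * v0) (a * v0 - u0) := by
  have hTT : TO K a b (AlgebraicClosure K) hb hab + TO K a b (AlgebraicClosure K) hb hab = 0 :=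
    T_self
  have hTn : -TO K a b (AlgebraicClosure K) hb hab = TO K a b (AlgebraicClosure K) hb hab :=
    neg_eq_of_add_eq_zero_left hTT
  have hb' : (b : AlgebraicClosure K) ≠ 0 := by exact_mod_cast hb
  rcases PA_cases hb hab P with rfl | ⟨x, y, hxy, rfl⟩
  · exfalso
    rw [add_zero] at hP
    exact TO_ne hP.symm
  have hy : y ≠ 0 := by
    rintro rfl
    rw [T_self] at hP
    exact TO_ne hP.symm
  have hx : x ≠ 0 := by
    rintro rfl
    apply hy
    have : y ^ 2 = 0 := by rw [hxy]; ring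
    exact pow_eq_zero_iff two_ne_zero |>.1 this
  -- the sum with `(0, 0)`
  have h1 : PA K hb hab x y hxy + TO K a b (AlgebraicClosure K) hb hab = -PA K hb hab x y hxy := by
    rw [← hTn, ← hP]
    abel
  have hq : (-((b : AlgebraicClosure K) * y / x ^ 2)) ^ 2 = ((b : AlgebraicClosure K) / x) ^ 3 +
      (a : AlgebraicClosure K) * ((b : AlgebraicClosure K) / x) ^ 2 +
      (b : AlgebraicClosure K) * ((b : AlgebraicClosure K) / x) := by
    rw [neg_sq, div_pow, mul_pow, hxy]
    field_simp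
    ring
  have h2 : PA K hb hab x y hxy + TO K a b (AlgebraicClosure K) hb hab =
      PA K hb hab ((b : AlgebraicClosure K) / x) (-((b : AlgebraicClosure K) * y / x ^ 2)) hq := by
    refine PA_add_T (l := y / x) hx ?_ ?_ ?_
    · field_simp
      ring
    · rw [div_pow, hxy]
      field_simp
      ring
    · field_simp
      ring
  rw [h2, PA_neg] at h1
  have h3 := (PA_inj h1).1
  have hxb : x ^ 2 = (b : AlgebraicClosure K) := by
    rw [div_eq_iff hx] at h3
    rw [h3]
    ring
  have hy2 : y ^ 2 = x ^ 2 * (2 * x + a) := by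
    rw [hxy, ← hxb]
    ring
  have E := h.rt.sum
  have M := h.rt.prod
  have hx1 : x - e1 ≠ 0 := by
    intro h0
    apply hy
    have : y ^ 2 = 0 := by
      rw [hy2]
      have h4 : x = e1 := sub_eq_zero.1 h0
      have h5 : e1 = e2 := by
        have h6 : e1 * (e1 - e2) = 0 := by
          rw [← h4] at M ⊢
          linear_combination hxb - M
        rcases mul_eq_zero.1 h6 with h7 | h7
        · exact absurd (h4.trans h7) hx
        · exact sub_eq_zero.1 h7
      exact absurd h5 h.ne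
    exact pow_eq_zero_iff two_ne_zero |>.1 this
  have hx2 : x - e2 ≠ 0 := by
    intro h0
    have h4 : x = e2 := sub_eq_zero.1 h0
    have h6 : e2 * (e2 - e1) = 0 := by
      rw [← h4] at M ⊢
      linear_combination hxb - M
    rcases mul_eq_zero.1 h6 with h7 | h7
    · exact absurd (h4.trans h7) hx
    · exact absurd (sub_eq_zero.1 h7).symm h.ne
  have hprod : (x - e1) * (x - e2) = x * (2 * x + a) := by
    linear_combination -x * E + M - hxb
  obtain ⟨r1, hr1⟩ : ∃ r1, r1 = y / (x - e2) := ⟨_, rfl⟩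
  obtain ⟨r2, hr2⟩ : ∃ r2, r2 = y / (x - e1) := ⟨_, rfl⟩
  have q1 : r1 ^ 2 = -e1 := by
    rw [hr1, div_pow, div_eq_iff (pow_ne_zero 2 hx2), hy2]
    linear_combination -x * hprod + (x - e2) * (hxb - M)
  have q2 : r2 ^ 2 = -e2 := by
    rw [hr2, div_pow, div_eq_iff (pow_ne_zero 2 hx1), hy2]
    linear_combination -x * hprod + (x - e1) * (hxb - M)
  have k1 : r1 * (x - e2) = y := by rw [hr1, div_mul_cancel₀ _ hx2]
  have k2 : r2 * (x - e1) = y := by rw [hr2, div_mul_cancel₀ _ hx1]
  have r12 : r1 * r2 = x := by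
    rw [hr1, hr2, div_mul_div_comm, div_eq_iff (mul_ne_zero hx2 hx1)]
    linear_combination hy2 - x * hprod
  have rs : (r1 + r2) * x = y := by
    linear_combination k1 + r1 * q2 - r2 * r12
  have hSr : Sr (AlgebraicClosure K) e1 e2 0 r1 r2 :=
    ⟨by rw [q1]; ring, by rw [q2]; ring⟩
  have hPR : PA K hb hab x y hxy = RP K hb hab h.rt hSr :=
    PA_congr (by rw [← r12]; ring) (by rw [← rs, ← r12]; ring)
  -- the action on the roots
  have key : ∀ (σ : Gal K) (m n : ℤ), (m = 1 ∨ m = -1) → (n = 1 ∨ n = -1) →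
      Fx e1 e2 s1 s2 σ m n → (σ e1 = e1 ∧ σ e2 = e2 ∧ σ r1 = m * r1 ∧ σ r2 = n * r2) ∨
      (σ e1 = e2 ∧ σ e2 = e1 ∧ σ r2 = m * r1 ∧ σ r1 = n * r2) := by
    intro σ m n hm hn hF
    have hm2 : ((m : ℤ) : AlgebraicClosure K) ^ 2 = 1 := by
      rcases hm with rfl | rfl <;> norm_num
    have hn2 : ((n : ℤ) : AlgebraicClosure K) ^ 2 = 1 := by
      rcases hn with rfl | rfl <;> norm_num
    have hSr' : Sr (AlgebraicClosure K) e1 e2 0 (m * r1) (n * r2) := by
      refine ⟨?_, ?_⟩
      · rw [mul_pow, hm2, one_mul]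
        exact hSr.q1
      · rw [mul_pow, hn2, one_mul]
        exact hSr.q2
    have h4 := hc σ
    rw [cz_eq h hm hn hF] at h4
    have h5 := RP_tr (k := K) (hb := hb) (hab := hab) h.rt hSr hm hn hSr'
      (by ring) rfl rfl
    rw [h4, ← hPR, add_sub_cancel, act_PA] at h5
    obtain ⟨h6, h7⟩ := PA_inj h5
    have hx' : σ x = m * n * (r1 * r2) := by
      refine (Eq.trans ?_ h6.symm).trans ?_
      · rfl
      · ring
    have hy' : σ y = m * n * (r1 * r2) * (m * r1 + n * r2) := by
      refine (Eq.trans ?_ h7.symm).trans ?_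
      · rfl
      · ring
    have g1 : σ r1 * (σ x - σ e2) = σ y := by rw [← map_sub, ← map_mul, k1]
    have g2 : σ r2 * (σ x - σ e1) = σ y := by rw [← map_sub, ← map_mul, k2]
    have z1 : σ x - σ e1 ≠ 0 := by rw [← map_sub]; exact (map_ne_zero σ).2 hx1
    have z2 : σ x - σ e2 ≠ 0 := by rw [← map_sub]; exact (map_ne_zero σ).2 hx2
    have d1 : m * r1 * (m * n * (r1 * r2) - e2) = m * n * (r1 * r2) * (m * r1 + n * r2) := by
      linear_combination -(m * r1) * q2 - (m : AlgebraicClosure K) * r1 * r2 ^ 2 * hn2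
    have d2 : n * r2 * (m * n * (r1 * r2) - e1) = m * n * (r1 * r2) * (m * r1 + n * r2) := by
      linear_combination -(n * r2) * q1 - (n : AlgebraicClosure K) * r2 * r1 ^ 2 * hm2
    rcases hF with ⟨f1, f2, -, -⟩ | ⟨f1, f2, -, -⟩
    · left
      refine ⟨f1, f2, ?_, ?_⟩
      · apply mul_right_cancel₀ z2
        rw [g1, f2, hx', hy', d1]
      · apply mul_right_cancel₀ z1
        rw [g2, f1, hx', hy', d2]
    · right
      refine ⟨f1, f2, ?_, ?_⟩
      · apply mul_right_cancel₀ z1
        rw [g2, f1, hx', hy', d1]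
      · apply mul_right_cancel₀ z2
        rw [g1, f2, hx', hy', d2]
  have t1 := rt_sq h.rt
  have t2 := rt_sq h.rt.symm
  refine desc (w1 := s1 * r1) (w2 := s2 * r2) h.rt h.ne ?_ ?_ ?_
  · rw [mul_pow, h.q1, q1]
    simp only [map_sub, map_mul, map_intCast]
    linear_combination (-algebraMap K (AlgebraicClosure K) v0) * t1
  · rw [mul_pow, h.q2, q2]
    simp only [map_sub, map_mul, map_intCast]
    linear_combination (-algebraMap K (AlgebraicClosure K) v0) * t2
  · intro σ
    obtain ⟨m, n, hm, hn, hF⟩ := h.fx (σ : AlgebraicClosure K →+* AlgebraicClosure K)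
      (σ.commutes u0) (σ.commutes v0)
    have hF : Fx e1 e2 s1 s2 σ m n := hF
    have hm2 : ((m : ℤ) : AlgebraicClosure K) ^ 2 = 1 := by
      rcases hm with rfl | rfl <;> norm_num
    have hn2 : ((n : ℤ) : AlgebraicClosure K) ^ 2 = 1 := by
      rcases hn with rfl | rfl <;> norm_num
    have hk := key σ m n hm hn hF
    rcases hF with ⟨f1, f2, f3, f4⟩ | ⟨f1, f2, f3, f4⟩
    · left
      rcases hk with ⟨-, -, g3, g4⟩ | ⟨g1, -, -, -⟩
      · refine ⟨f1, f2, ?_, ?_⟩
        · rw [map_mul, f3, g3]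
          linear_combination s1 * r1 * hm2
        · rw [map_mul, f4, g4]
          linear_combination s2 * r2 * hn2
      · exact absurd (f1.symm.trans g1) h.ne
    · right
      rcases hk with ⟨g1, -, -, -⟩ | ⟨-, -, g3, g4⟩
      · exact absurd (g1.symm.trans f1) h.ne
      · refine ⟨f1, f2, ?_, ?_⟩
        · rw [map_mul, f4, g4]
          linear_combination s2 * r2 * hn2
        · rw [map_mul, f3, g3]
          linear_combination s1 * r1 * hm2

/-- **coboundaries** -/
theorem cob_sq (nb : ¬ IsSquare (b : K)) (nab : ¬ IsSquare ((a : K) ^ 2 - 4 * b))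
    (hf : Finite (WF K a b).toAffine.Point)
    (h : Rs (AlgebraicClosure K) a b (algebraMap K _ u0) (algebraMap K _ v0) e1 e2 s1 s2)
    (hc : IsCob (WF K a b) (cz hb hab h)) :
    SqZ K a b u0 v0 ∨ SqZ K a b (b * v0) (a * v0 - u0) := by
  obtain ⟨P, hP⟩ := hc
  have h2 : ∀ σ, cz hb hab h σ + cz hb hab h σ = 0 := fun σ => congrFun (cz_two h) σ
  -- the double of `P` is rational
  have hfix : ∀ σ : Gal K, act (WF K a b) σ.toAlgHom (P + P) = P + P := by
    intro σ
    have h3 := h2 σ
    rw [hP σ] at h3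
    rw [map_add, ← sub_eq_zero, ← h3]
    abel
  obtain ⟨Q, hQ⟩ := desc_pt hb hab hfix
  obtain ⟨R, hR⟩ := halfK hb hab nb nab hf Q
  obtain ⟨R', hR'⟩ : ∃ R', R' = act (WF K a b) (Algebra.ofId K (AlgebraicClosure K)) R := ⟨_, rfl⟩
  have hP' : ∀ σ : Gal K, cz hb hab h σ = act (WF K a b) σ.toAlgHom (P - R') - (P - R') := by
    intro σ
    rw [hP σ, map_sub, hR', act_ofId hb hab]
    abel
  rcases hR with hR | hR
  · left
    have h3 : (P - R') + (P - R') = 0 := by
      have h4 : P + P = R' + R' := by rw [← hQ, hR, map_add, hR']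
      rw [sub_add_sub_comm, h4, sub_self]
    obtain ⟨P', hPd⟩ : ∃ P', P' = P - R' := ⟨_, rfl⟩
    rw [← hPd] at h3
    simp only [← hPd] at hP'
    -- the cases
    have c0 : (∀ σ : Gal K, act (WF K a b) σ.toAlgHom P' = P') → SqZ K a b u0 v0 := by
      intro h4
      refine cob_two h (κ := 1) (Or.inl rfl) fun σ m n hm hn hF => ?_
      have h5 := hP' σ
      rw [h4 σ, sub_self, cz_eq h hm hn hF] at h5
      obtain ⟨h6, h7⟩ := sgn_zero h.rt hm hn h5
      exact ⟨fun _ => ⟨h6, h7⟩, fun _ => ⟨h6, h7⟩⟩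
    rcases PA_cases hb hab P' with h4 | ⟨x, y, hxy, h4⟩
    · apply c0
      intro σ
      rw [h4, map_zero]
    · rw [h4] at h3
      have hy := two_tors h3
      subst hy
      have E := h.rt.sum
      have M := h.rt.prod
      have h5 : x * ((x - e1) * (x - e2)) = 0 := by
        linear_combination -hxy - x ^ 2 * E + x * M
      rcases mul_eq_zero.1 h5 with h6 | h6
      · apply c0
        intro σ
        rw [h4, act_PA]
        refine PA_congr ?_ (map_zero _)
        rw [h6]
        exact map_zero _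
      · rcases mul_eq_zero.1 h6 with h7 | h7
        · -- the point `(e1, 0)`
          have h8 : P' = T1 K hb hab h.rt := by
            rw [h4]
            exact PA_congr (sub_eq_zero.1 h7) rfl
          refine cob_two h (κ := -1) (Or.inr rfl) fun σ m n hm hn hF => ?_
          have h9 := hP' σ
          rw [cz_eq h hm hn hF, h8] at h9
          constructor
          · intro f1
            rw [act_T1 σ.toAlgHom h.rt h.rt f1, sub_self] at h9
            exact sgn_zero h.rt hm hn h9
          · intro f1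
            rw [act_T1 σ.toAlgHom h.rt h.rt.symm f1] at h9
            refine sgn_neg (K := K) (hb := hb) (hab := hab) h.rt hm hn ?_
            rw [h9, sub_eq_add_neg, neg_eq_of_add_eq_zero_left (T1_two (K := K) (hb := hb) (hab := hab) h.rt)]
        · have h8 : P' = T1 K hb hab h.rt.symm := by
            rw [h4]
            exact PA_congr (sub_eq_zero.1 h7) rfl
          refine cob_two h (κ := -1) (Or.inr rfl) fun σ m n hm hn hF => ?_
          have h9 := hP' σ
          rw [cz_eq h hm hn hF, h8] at h9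
          constructor
          · intro f1
            have f2 : σ e2 = e2 := by
              rcases hF with ⟨-, f2, -, -⟩ | ⟨g1, -, -, -⟩
              · exact f2
              · exact absurd (f1.symm.trans g1) h.ne
            rw [act_T1 σ.toAlgHom h.rt.symm h.rt.symm f2, sub_self] at h9
            exact sgn_zero h.rt hm hn h9
          · intro f1
            have f2 : σ e2 = e1 := by
              rcases hF with ⟨g1, -, -, -⟩ | ⟨-, f2, -, -⟩
              · exact absurd (g1.symm.trans f1) h.ne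
              · exact f2
            rw [act_T1 σ.toAlgHom h.rt.symm h.rt f2] at h9
            refine sgn_neg (K := K) (hb := hb) (hab := hab) h.rt hm hn ?_
            rw [h9, sub_eq_add_neg, neg_eq_of_add_eq_zero_left
              (T1_two (K := K) (hb := hb) (hab := hab) h.rt.symm), add_comm]
  · right
    have hTO : act (WF K a b) (Algebra.ofId K (AlgebraicClosure K)) (TO K a b K hb hab) =
        TO K a b (AlgebraicClosure K) hb hab := by
      unfold TO
      rw [act_PA]
      exact PA_congr (map_zero (Algebra.ofId K (AlgebraicClosure K)))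
        (map_zero (Algebra.ofId K (AlgebraicClosure K)))
    have h3 : (P - R') + (P - R') = TO K a b (AlgebraicClosure K) hb hab := by
      have h4 : P + P = TO K a b (AlgebraicClosure K) hb hab + (R' + R') := by
        rw [← hQ, hR, map_add, map_add, hR', hTO]
      rw [sub_add_sub_comm, h4, add_sub_cancel_right]
    exact cob_half h h3 hP'

end

end Pool.Agent.L0h23.SZ
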