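import Pool.Agent.L0h23.SZ.Geo
import Pool.Agent.Y79.SG.Coc

/-!
# General 2-coverings of `y² = x³ + a x² + b x`: the cocycle
-/

set_option autoImplicit false
set_option linter.unusedSectionVars false

namespace Pool.Agent.L0h23.SZ

open WeierstrassCurve Pool.Agent.TH841.SH.D Pool.Agent.Y698.SG.Cv

/-- the roots of `T² + a T + b` and the square roots of the values of `u + v T` -/
structure Rs (L : Type) [Field L] (a b : ℤ) (u v : L) (e1 e2 s1 s2 : L) : Prop where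
  rt : Rt L a b e1 e2
  q1 : s1 ^ 2 = u + v * e1
  q2 : s2 ^ 2 = u + v * e2
  ne : e1 ≠ e2
  z1 : s1 ≠ 0
  z2 : s2 ≠ 0

lemma Rs.map {L F : Type} [Field L] [Field F] {a b : ℤ} {u v e1 e2 s1 s2 : L}
    (h : Rs L a b u v e1 e2 s1 s2) (φ : L →+* F) :
    Rs F a b (φ u) (φ v) (φ e1) (φ e2) (φ s1) (φ s2) :=
  ⟨h.rt.map φ, by rw [← map_pow, h.q1, map_add, map_mul], by rw [← map_pow, h.q2, map_add, map_mul],
    fun h' => h.ne (φ.injective h'), (map_ne_zero φ).2 h.z1, (map_ne_zero φ).2 h.z2⟩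

/-- the map `τ` acts on the roots with the signs `m`, `n` -/
def Fx {L : Type} [Field L] (e1 e2 s1 s2 : L) (τ : L → L) (m n : ℤ) : Prop :=
  (τ e1 = e1 ∧ τ e2 = e2 ∧ τ s1 = m * s1 ∧ τ s2 = n * s2) ∨
  (τ e1 = e2 ∧ τ e2 = e1 ∧ τ s2 = m * s1 ∧ τ s1 = n * s2)

section
variable {L : Type} [Field L] [CharZero L] {a b : ℤ} {u v e1 e2 s1 s2 : L}

lemma sgn_ne {s : L} (hs : s ≠ 0) : -s ≠ s := by
  intro h
  apply hs
  have h1 : (2 : L) * s = 0 := by linear_combination -h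
  exact (mul_eq_zero.1 h1).resolve_left two_ne_zero

lemma pm_of {x s : L} (h : x ^ 2 = s ^ 2) : ∃ m : ℤ, (m = 1 ∨ m = -1) ∧ x = m * s := by
  rcases sq_eq_sq_iff_eq_or_eq_neg.1 h with h1 | h1
  · exact ⟨1, Or.inl rfl, by rw [h1]; push_cast; ring⟩
  · exact ⟨-1, Or.inr rfl, by rw [h1]; push_cast; ring⟩

lemma Rs.fx (h : Rs L a b u v e1 e2 s1 s2) (τ : L →+* L) (hu : τ u = u) (hv : τ v = v) :
    ∃ m n : ℤ, (m = 1 ∨ m = -1) ∧ (n = 1 ∨ n = -1) ∧ Fx e1 e2 s1 s2 τ m n := by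
  have e := h.rt.map τ
  have h1 : (τ e1 - e1) * (τ e1 - e2) = 0 := by
    have h2 := e.sum
    have h3 := e.prod
    have h4 := h.rt.sum
    have h5 := h.rt.prod
    linear_combination τ e1 * h2 - h3 - τ e1 * h4 + h5
  have hq1 := congrArg τ h.q1
  have hq2 := congrArg τ h.q2
  rw [map_pow, map_add, map_mul, hu, hv] at hq1 hq2
  rcases mul_eq_zero.1 h1 with h2 | h2
  · have h3 : τ e1 = e1 := sub_eq_zero.1 h2
    have h4 : τ e2 = e2 := by
      have := e.sum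
      rw [h3, ← h.rt.sum] at this
      exact add_left_cancel this
    obtain ⟨m, hm, hm'⟩ := pm_of (x := τ s1) (s := s1) (by rw [hq1, h3, h.q1])
    obtain ⟨n, hn, hn'⟩ := pm_of (x := τ s2) (s := s2) (by rw [hq2, h4, h.q2])
    exact ⟨m, n, hm, hn, Or.inl ⟨h3, h4, hm', hn'⟩⟩
  · have h3 : τ e1 = e2 := sub_eq_zero.1 h2
    have h4 : τ e2 = e1 := by
      have := e.sum
      rw [h3, ← h.rt.sum, add_comm e1] at this
      exact add_left_cancel this
    obtain ⟨m, hm, hm'⟩ := pm_of (x := τ s2) (s := s1) (by rw [hq2, h4, h.q1])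
    obtain ⟨n, hn, hn'⟩ := pm_of (x := τ s1) (s := s2) (by rw [hq1, h3, h.q2])
    exact ⟨m, n, hm, hn, Or.inr ⟨h3, h4, hm', hn'⟩⟩

open Classical in
/-- the first sign -/
noncomputable def mS (e1 s1 s2 : L) (τ : L → L) : ℤ :=
  if (τ e1 = e1 ∧ τ s1 = s1) ∨ (τ e1 ≠ e1 ∧ τ s2 = s1) then 1 else -1

lemma Rs.mS_eq (h : Rs L a b u v e1 e2 s1 s2) {τ : L → L} {m n : ℤ} (hm : m = 1 ∨ m = -1)
    (hF : Fx e1 e2 s1 s2 τ m n) : mS e1 s1 s2 τ = m := by
  unfold mS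
  have h0 := sgn_ne h.z1
  rcases hF with ⟨f1, f2, f3, f4⟩ | ⟨f1, f2, f3, f4⟩
  · rcases hm with rfl | rfl
    · rw [if_pos]
      left
      exact ⟨f1, by rw [f3]; push_cast; ring⟩
    · rw [if_neg]
      rintro (⟨g1, g2⟩ | ⟨g1, g2⟩)
      · rw [f3, Int.cast_neg, Int.cast_one, neg_one_mul] at g2
        exact h0 g2
      · exact g1 f1
  · rcases hm with rfl | rfl
    · rw [if_pos]
      right
      exact ⟨fun g => h.ne (by rw [← f1, g]), by rw [f3]; push_cast; ring⟩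
    · rw [if_neg]
      rintro (⟨g1, g2⟩ | ⟨g1, g2⟩)
      · exact h.ne (by rw [← f1, g1])
      · rw [f3, Int.cast_neg, Int.cast_one, neg_one_mul] at g2
        exact h0 g2

lemma Rs.symm (h : Rs L a b u v e1 e2 s1 s2) : Rs L a b u v e2 e1 s2 s1 :=
  ⟨h.rt.symm, h.q2, h.q1, h.ne.symm, h.z2, h.z1⟩

lemma Fx.symm {τ : L → L} {m n : ℤ} (hF : Fx e1 e2 s1 s2 τ m n) : Fx e2 e1 s2 s1 τ n m := by
  rcases hF with ⟨f1, f2, f3, f4⟩ | ⟨f1, f2, f3, f4⟩
  · exact Or.inl ⟨f2, f1, f4, f3⟩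
  · exact Or.inr ⟨f2, f1, f4, f3⟩

end

/-! ### the cocycle -/

section
variable {K : Type} [Field K] [CharZero K] {a b : ℤ}
  {u v e1 e2 s1 s2 : AlgebraicClosure K}

instance cz_ac : CharZero (AlgebraicClosure K) :=
  charZero_of_injective_algebraMap (algebraMap K (AlgebraicClosure K)).injective

/-- the cocycle -/
noncomputable def cz (hb : b ≠ 0) (hab : a ^ 2 - 4 * b ≠ 0)
    (h : Rs (AlgebraicClosure K) a b u v e1 e2 s1 s2) : Coch (WF K a b) := fun σ =>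
  (FT (T1 K hb hab h.rt.symm) (mS e1 s1 s2 σ) + FT (T1 K hb hab h.rt) (mS e2 s2 s1 σ) :
    Pt (WF K a b) (AlgebraicClosure K))

variable {hb : b ≠ 0} {hab : a ^ 2 - 4 * b ≠ 0}

lemma cz_eq (h : Rs (AlgebraicClosure K) a b u v e1 e2 s1 s2) {σ : Gal K} {m n : ℤ}
    (hm : m = 1 ∨ m = -1) (hn : n = 1 ∨ n = -1) (hF : Fx e1 e2 s1 s2 σ m n) :
    cz hb hab h σ = FT (T1 K hb hab h.rt.symm) m + FT (T1 K hb hab h.rt) n := by
  unfold cz
  rw [h.mS_eq hm hF, h.symm.mS_eq hn hF.symm]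

lemma T1_two {L : Type} [Field L] [Algebra K L] {e1 e2 : L} (h : Rt L a b e1 e2) :
    T1 K hb hab h + T1 K hb hab h = 0 := T_self

lemma act_T1 {L F : Type} [Field L] [Algebra K L] [Field F] [Algebra K F] (φ : L →ₐ[K] F)
    {e1 e2 : L} (h : Rt L a b e1 e2) {e1' e2' : F} (h' : Rt F a b e1' e2') (he : φ e1 = e1') :
    act (WF K a b) φ (T1 K hb hab h) = T1 K hb hab h' := by
  unfold T1
  rw [act_PA]
  exact PA_congr he (map_zero φ)

lemma act_FT {L F : Type} [Field L] [Algebra K L] [Field F] [Algebra K F] (φ : L →ₐ[K] F)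
    (T : Pt (WF K a b) L) (n : ℤ) : act (WF K a b) φ (FT T n) = FT (act (WF K a b) φ T) n := by
  unfold FT
  split_ifs
  · exact map_zero _
  · rfl

theorem cz_coc (h : Rs (AlgebraicClosure K) a b u v e1 e2 s1 s2)
    (hu : ∀ σ : Gal K, σ u = u) (hv : ∀ σ : Gal K, σ v = v) :
    IsCoc (WF K a b) (cz hb hab h) := by
  classical
  constructor
  · have h1 : cz hb hab h = (fun x : AlgebraicClosure K × AlgebraicClosure K ×
        AlgebraicClosure K × AlgebraicClosure K =>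
        (FT (T1 K hb hab h.rt.symm)
          (if (x.1 = e1 ∧ x.2.2.1 = s1) ∨ (x.1 ≠ e1 ∧ x.2.2.2 = s1) then 1 else -1) +
        FT (T1 K hb hab h.rt)
          (if (x.2.1 = e2 ∧ x.2.2.2 = s2) ∨ (x.2.1 ≠ e2 ∧ x.2.2.1 = s2) then 1 else -1) :
            Pt (WF K a b) (AlgebraicClosure K))) ∘
        (fun σ : Gal K => (σ e1, σ e2, σ s1, σ s2)) := by
      funext σ
      rfl
    rw [h1]
    exact ((Pool.Agent.Y79.SG.lc_apply e1).prodMk ((Pool.Agent.Y79.SG.lc_apply e2).prodMk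
      ((Pool.Agent.Y79.SG.lc_apply s1).prodMk (Pool.Agent.Y79.SG.lc_apply s2)))).comp _
  · intro σ τ
    obtain ⟨m, n, hm, hn, hF⟩ := h.fx (σ : AlgebraicClosure K →+* AlgebraicClosure K) (hu σ) (hv σ)
    obtain ⟨m', n', hm', hn', hF'⟩ := h.fx (τ : AlgebraicClosure K →+* AlgebraicClosure K)
      (hu τ) (hv τ)
    have hF : Fx e1 e2 s1 s2 σ m n := hF
    have hF' : Fx e1 e2 s1 s2 τ m' n' := hF'
    have hmul : ∀ x, (σ * τ) x = σ (τ x) := fun x => rfl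
    have hint : ∀ k : ℤ, σ ((k : ℤ) : AlgebraicClosure K) = (k : AlgebraicClosure K) :=
      fun k => map_intCast σ k
    have hpm : ∀ {x y : ℤ}, (x = 1 ∨ x = -1) → (y = 1 ∨ y = -1) → (x * y = 1 ∨ x * y = -1) := by
      rintro x y (rfl | rfl) (rfl | rfl) <;> norm_num
    rw [cz_eq h hm hn hF, cz_eq h hm' hn' hF', map_add, act_FT, act_FT]
    rcases hF with ⟨f1, f2, f3, f4⟩ | ⟨f1, f2, f3, f4⟩
    · rw [act_T1 σ.toAlgHom h.rt h.rt f1, act_T1 σ.toAlgHom h.rt.symm h.rt.symm f2]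
      have h3 : Fx e1 e2 s1 s2 (⇑(σ * τ)) (m * m') (n * n') := by
        rcases hF' with ⟨g1, g2, g3, g4⟩ | ⟨g1, g2, g3, g4⟩
        · left
          refine ⟨by rw [hmul, g1, f1], by rw [hmul, g2, f2], ?_, ?_⟩
          · rw [hmul, g3, map_mul, hint, f3]; push_cast; ring
          · rw [hmul, g4, map_mul, hint, f4]; push_cast; ring
        · right
          refine ⟨by rw [hmul, g1, f2], by rw [hmul, g2, f1], ?_, ?_⟩
          · rw [hmul, g3, map_mul, hint, f3]; push_cast; ring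
          · rw [hmul, g4, map_mul, hint, f4]; push_cast; ring
      rw [cz_eq h (hpm hm hm') (hpm hn hn') h3, FT_mul (T1_two _) hm hm', FT_mul (T1_two _) hn hn']
      abel
    · rw [act_T1 σ.toAlgHom h.rt h.rt.symm f1, act_T1 σ.toAlgHom h.rt.symm h.rt f2]
      have h3 : Fx e1 e2 s1 s2 (⇑(σ * τ)) (m * n') (n * m') := by
        rcases hF' with ⟨g1, g2, g3, g4⟩ | ⟨g1, g2, g3, g4⟩
        · right
          refine ⟨by rw [hmul, g1, f1], by rw [hmul, g2, f2], ?_, ?_⟩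
          · rw [hmul, g4, map_mul, hint, f3]; push_cast; ring
          · rw [hmul, g3, map_mul, hint, f4]; push_cast; ring
        · left
          refine ⟨by rw [hmul, g1, f2], by rw [hmul, g2, f1], ?_, ?_⟩
          · rw [hmul, g4, map_mul, hint, f3]; push_cast; ring
          · rw [hmul, g3, map_mul, hint, f4]; push_cast; ring
      rw [cz_eq h (hpm hm hn') (hpm hn hm') h3, FT_mul (T1_two _) hm hn', FT_mul (T1_two _) hn hm']
      abel

lemma FT_two {A : Type} [AddCommGroup A] {T : A} (hT : T + T = 0) (n : ℤ) :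
    FT T n + FT T n = 0 := by
  unfold FT
  split_ifs
  · exact add_zero 0
  · exact hT

lemma cz_two (h : Rs (AlgebraicClosure K) a b u v e1 e2 s1 s2) :
    cz hb hab h + cz hb hab h = 0 := by
  funext σ
  show (FT (T1 K hb hab h.rt.symm) (mS e1 s1 s2 σ) + FT (T1 K hb hab h.rt) (mS e2 s2 s1 σ)) +
    (FT (T1 K hb hab h.rt.symm) (mS e1 s1 s2 σ) + FT (T1 K hb hab h.rt) (mS e2 s2 s1 σ)) =
    (0 : Pt (WF K a b) (AlgebraicClosure K))
  rw [add_add_add_comm, FT_two (T1_two _), FT_two (T1_two _), add_zero]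

end

end Pool.Agent.L0h23.SZ
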