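import Pool.Agent.L0h23.SZ.Cbz

/-!
# Elements of order two in the Tate-Shafarevich group from general 2-coverings

For `y² = x³ + a x² + b x` over a number field `K` with finitely many points, `b` and `a² - 4 b` not
squares in `K`, `a² - 4 b < 0`: an element `u + v T` of `K[T] / (T² + a T + b)` which is everywhere
locally the class of a point, and is neither a square nor a square times `-T`, gives a nonzero
element of `Ш(K)` killed by two.
-/

set_option autoImplicit false
set_option linter.unusedSectionVars false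

namespace Pool.Agent.L0h23.SZ

open NumberField IsDedekindDomain
open WeierstrassCurve Pool.Agent.TH841.SH.D Pool.Agent.Y698.SG.Cv
open Pool.Agent.TH841.NF.D (Sha shaCoc)

/-- squares over the real numbers -/
lemma sqz_real {a b : ℤ} (hab : a ^ 2 - 4 * b < 0) (u v : ℝ) : SqZ ℝ a b u v := by
  have h0 : (0 : ℝ) < 4 * b - a ^ 2 := by
    have : ((a ^ 2 - 4 * b : ℤ) : ℝ) < 0 := by exact_mod_cast hab
    push_cast at this
    linarith
  obtain ⟨δ, hδ, hδ0⟩ : ∃ δ : ℝ, δ ^ 2 = 4 * b - a ^ 2 ∧ δ ≠ 0 :=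
    ⟨Real.sqrt (4 * b - a ^ 2), Real.sq_sqrt h0.le, (Real.sqrt_pos.2 h0).ne'⟩
  obtain ⟨w, hw⟩ := IsAlgClosed.exists_pow_nat_eq (k := ℂ)
    (⟨u - v * a / 2, v * δ / 2⟩ : ℂ) (n := 2) two_pos
  have hre := congrArg Complex.re hw
  have him := congrArg Complex.im hw
  rw [pow_two, Complex.mul_re] at hre
  rw [pow_two, Complex.mul_im] at him
  simp only at hre him
  refine ⟨w.re + w.im / δ * a, 2 * w.im / δ, ?_, ?_⟩
  · field_simp
    linear_combination (-δ ^ 2) * hre - δ * a * him - w.im ^ 2 * hδ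
  · field_simp
    linear_combination -2 * δ * him

/-- squares over an algebraically closed field -/
lemma sqz_closed {L : Type} [Field L] [CharZero L] [IsAlgClosed L] {a b : ℤ}
    (hab : a ^ 2 - 4 * b ≠ 0) (u v : L) : SqZ L a b u v := by
  have hab' : (a : L) ^ 2 - 4 * b ≠ 0 := by exact_mod_cast hab
  obtain ⟨δ, hδ⟩ := IsAlgClosed.exists_pow_nat_eq ((a : L) ^ 2 - 4 * b) (n := 2) two_pos
  have hδ0 : δ ≠ 0 := by
    rintro rfl
    apply hab'
    rw [← hδ]
    ring
  obtain ⟨w1, h1⟩ := IsAlgClosed.exists_pow_nat_eq (u + v * ((-a + δ) / 2)) (n := 2) two_pos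
  obtain ⟨w2, h2⟩ := IsAlgClosed.exists_pow_nat_eq (u + v * ((-a - δ) / 2)) (n := 2) two_pos
  have h20 : (2 : L) ≠ 0 := two_ne_zero
  obtain ⟨h, hh⟩ : ∃ h : L, h * δ = w1 - w2 := ⟨(w1 - w2) / δ, div_mul_cancel₀ _ hδ0⟩
  obtain ⟨g, hg⟩ : ∃ g : L, g * 2 = w1 + w2 + h * a := ⟨(w1 + w2 + h * a) / 2, div_mul_cancel₀ _ h20⟩
  have h3 : w1 ^ 2 - w2 ^ 2 = v * δ := by
    rw [h1, h2]
    field_simp
    ring
  have h4 : w1 ^ 2 + w2 ^ 2 = 2 * u - v * a := by
    rw [h1, h2]
    field_simp
    ring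
  have h5 : h * (w1 + w2) = v := by
    apply mul_right_cancel₀ hδ0
    linear_combination (w1 + w2) * hh + h3
  have h6 : v = 2 * g * h - a * h ^ 2 := by
    linear_combination -h5 - h * hg
  refine ⟨g, h, ?_, h6⟩
  have h40 : (4 : L) ≠ 0 := by norm_num
  apply mul_left_cancel₀ h40
  linear_combination -2 * h4 - (2 * g + w1 + w2 + h * a) * hg - 2 * a * h5 + h ^ 2 * hδ -
    (h * δ + w1 - w2) * hh

/-- the roots -/
lemma exists_rs {K : Type} [Field K] [CharZero K] {a b : ℤ} (hab : a ^ 2 - 4 * b ≠ 0) {u v : K}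
    (hN : u ^ 2 - a * u * v + b * v ^ 2 ≠ 0) : ∃ e1 e2 s1 s2 : AlgebraicClosure K,
      Rs (AlgebraicClosure K) a b (algebraMap K _ u) (algebraMap K _ v) e1 e2 s1 s2 := by
  have hab' : (a : AlgebraicClosure K) ^ 2 - 4 * b ≠ 0 := by exact_mod_cast hab
  obtain ⟨δ, hδ⟩ := IsAlgClosed.exists_pow_nat_eq ((a : AlgebraicClosure K) ^ 2 - 4 * b)
    (n := 2) two_pos
  have hδ0 : δ ≠ 0 := by
    rintro rfl
    apply hab'
    rw [← hδ]
    ring
  have h20 : (2 : AlgebraicClosure K) ≠ 0 := two_ne_zero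
  obtain ⟨e1, he1⟩ : ∃ e1 : AlgebraicClosure K, e1 = (-a + δ) / 2 := ⟨_, rfl⟩
  obtain ⟨e2, he2⟩ : ∃ e2 : AlgebraicClosure K, e2 = (-a - δ) / 2 := ⟨_, rfl⟩
  obtain ⟨s1, h1⟩ := IsAlgClosed.exists_pow_nat_eq
    (algebraMap K (AlgebraicClosure K) u + algebraMap K _ v * e1) (n := 2) two_pos
  obtain ⟨s2, h2⟩ := IsAlgClosed.exists_pow_nat_eq
    (algebraMap K (AlgebraicClosure K) u + algebraMap K _ v * e2) (n := 2) two_pos
  have E : e1 + e2 = -(a : AlgebraicClosure K) := by
    rw [he1, he2]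
    field_simp
    ring
  have M : e1 * e2 = (b : AlgebraicClosure K) := by
    rw [he1, he2]
    field_simp
    linear_combination -hδ
  have hN' : s1 ^ 2 * s2 ^ 2 ≠ 0 := by
    have h3 : s1 ^ 2 * s2 ^ 2 =
        algebraMap K (AlgebraicClosure K) (u ^ 2 - a * u * v + b * v ^ 2) := by
      rw [h1, h2]
      simp only [map_add, map_sub, map_mul, map_pow, map_intCast]
      linear_combination algebraMap K (AlgebraicClosure K) u * algebraMap K _ v * E +
        (algebraMap K (AlgebraicClosure K) v) ^ 2 * M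
    rw [h3]
    exact (map_ne_zero _).2 hN
  refine ⟨e1, e2, s1, s2, ⟨E, M⟩, h1, h2, ?_, ?_, ?_⟩
  · intro h
    apply hδ0
    rw [he1, he2] at h
    field_simp at h
    have h4 : (2 : AlgebraicClosure K) * δ = 0 := by linear_combination h
    exact (mul_eq_zero.1 h4).resolve_left h20
  · rintro rfl
    apply hN'
    ring
  · rintro rfl
    apply hN'
    ring

/-- **elements of order two in the Tate-Shafarevich group** -/
theorem exists_shaZ {K : Type} [Field K] [NumberField K] {a b : ℤ} (hb : b ≠ 0)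
    (hab : a ^ 2 - 4 * b < 0) (nb : ¬ IsSquare (b : K)) (nab : ¬ IsSquare ((a : K) ^ 2 - 4 * b))
    (hf : Finite (WF K a b).toAffine.Point) {u v : K} (hN : u ^ 2 - a * u * v + b * v ^ 2 ≠ 0)
    (hl : ∀ w : HeightOneSpectrum (𝓞 K), LocZ (w.adicCompletion K) a b
      (algebraMap K (w.adicCompletion K) u) (algebraMap K (w.adicCompletion K) v))
    (n1 : ¬ SqZ K a b u v) (n2 : ¬ SqZ K a b (b * v) (a * v - u)) :
    ∃ x : Sha (WF K a b), x ≠ 0 ∧ x + x = 0 := by
  have hab' : a ^ 2 - 4 * b ≠ 0 := hab.ne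
  obtain ⟨e1, e2, s1, s2, h⟩ := exists_rs hab' hN
  have hc : cz hb hab' h ∈ shaCoc (WF K a b) := by
    refine ⟨cz_coc h (fun σ => σ.commutes u) (fun σ => σ.commutes v), fun w => ?_, fun w => ?_⟩
    · exact loc_triv h (hl w)
    · refine loc_triv h (Or.inl ?_)
      rcases w.isReal_or_isComplex with hw | hw
      · have h1 := (sqz_real hab
          ((InfinitePlace.Completion.ringEquivRealOfIsReal hw) (algebraMap K w.Completion u))
          ((InfinitePlace.Completion.ringEquivRealOfIsReal hw) (algebraMap K w.Completion v))).map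
          (InfinitePlace.Completion.ringEquivRealOfIsReal hw).symm.toRingHom
        have h2 : ∀ x, (InfinitePlace.Completion.ringEquivRealOfIsReal hw).symm.toRingHom
          ((InfinitePlace.Completion.ringEquivRealOfIsReal hw) x) = x := fun x =>
            (InfinitePlace.Completion.ringEquivRealOfIsReal hw).symm_apply_apply x
        rwa [h2, h2] at h1
      · have h1 := (sqz_closed hab'
          ((InfinitePlace.Completion.ringEquivComplexOfIsComplex hw) (algebraMap K w.Completion u))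
          ((InfinitePlace.Completion.ringEquivComplexOfIsComplex hw)
            (algebraMap K w.Completion v))).map
          (InfinitePlace.Completion.ringEquivComplexOfIsComplex hw).symm.toRingHom
        have h2 : ∀ x, (InfinitePlace.Completion.ringEquivComplexOfIsComplex hw).symm.toRingHom
          ((InfinitePlace.Completion.ringEquivComplexOfIsComplex hw) x) = x := fun x =>
            (InfinitePlace.Completion.ringEquivComplexOfIsComplex hw).symm_apply_apply x
        rwa [h2, h2] at h1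
  let N : AddSubgroup (shaCoc (WF K a b)) := (cob (WF K a b)).addSubgroupOf (shaCoc (WF K a b))
  let y : shaCoc (WF K a b) := ⟨cz hb hab' h, hc⟩
  refine ⟨(QuotientAddGroup.mk y : shaCoc (WF K a b) ⧸ N), ?_, ?_⟩
  · intro h0
    have h1 : (QuotientAddGroup.mk y : shaCoc (WF K a b) ⧸ N) = 0 := h0
    rw [QuotientAddGroup.eq_zero_iff, AddSubgroup.mem_addSubgroupOf] at h1
    rcases cob_sq nb nab hf h h1 with h2 | h2
    · exact n1 h2
    · exact n2 h2
  · have h5 : (QuotientAddGroup.mk (y + y) : shaCoc (WF K a b) ⧸ N) = 0 := by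
      rw [QuotientAddGroup.eq_zero_iff, AddSubgroup.mem_addSubgroupOf]
      have h6 : ((y + y : shaCoc (WF K a b)) : Coch (WF K a b)) = 0 := cz_two h
      rw [h6]
      exact cob_zero _
    exact h5

end Pool.Agent.L0h23.SZ
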