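import Pool.Agent.Y79.SG.Lot

/-!
# General 2-coverings of `y² = x³ + a x² + b x`: the geometry

Points in terms of square roots: if `r0² - r1² = e1`, `r0² - r2² = e2` with `e1 + e2 = -a`,
`e1 e2 = b`, then `R = (r0² + r0 r1 + r0 r2 + r1 r2, (r0 + r1)(r0 + r2)(r1 + r2))` is a point (one
half of `(r0², - r0 r1 r2)`), and the translations by the points of order two change the signs.
-/

set_option autoImplicit false
set_option linter.unusedSectionVars false

namespace Pool.Agent.L0h23.SZ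

open WeierstrassCurve Pool.Agent.TH841.SH.D Pool.Agent.Y698.SG.Cv
open Pool.Agent.Y79.SG.Lot (act_some' some_congr wa1 wa2 wa3 wa4 wa6 hne)

section

variable {k : Type} [Field k] [CharZero k] {a b : ℤ} {L : Type} [Field L] [Algebra k L]

/-- all the points are nonsingular -/
lemma nsA (hb : b ≠ 0) (hab : a ^ 2 - 4 * b ≠ 0) {x y : L}
    (h : y ^ 2 = x ^ 3 + (a : L) * x ^ 2 + (b : L) * x) :
    ((WF k a b).baseChange L).toAffine.Nonsingular x y := by
  have hz : CharZero L := charZero_of_injective_algebraMap (algebraMap k L).injective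
  have hb' : (b : L) ≠ 0 := by exact_mod_cast hb
  have hab' : (a : L) ^ 2 - 4 * b ≠ 0 := by exact_mod_cast hab
  rw [← Affine.equation_iff_nonsingular_of_Δ_ne_zero]
  · rw [Affine.equation_iff', wa1, wa2, wa3, wa4, wa6]
    linear_combination h
  · have h1 : ((WF k a b).baseChange L).toAffine.Δ = 16 * (b : L) ^ 2 * ((a : L) ^ 2 - 4 * b) := by
      simp only [WeierstrassCurve.Δ, WeierstrassCurve.b₂, WeierstrassCurve.b₄,
        WeierstrassCurve.b₆, WeierstrassCurve.b₈]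
      rw [wa1, wa2, wa3, wa4, wa6]
      ring
    rw [h1]
    exact mul_ne_zero (mul_ne_zero (by norm_num) (pow_ne_zero 2 hb')) hab'

variable (k) in
/-- a point of the curve over `L` -/
def PA (hb : b ≠ 0) (hab : a ^ 2 - 4 * b ≠ 0) (x y : L)
    (h : y ^ 2 = x ^ 3 + (a : L) * x ^ 2 + (b : L) * x) : Pt (WF k a b) L :=
  Affine.Point.some x y (nsA hb hab h)

variable {hb : b ≠ 0} {hab : a ^ 2 - 4 * b ≠ 0}

lemma PA_congr {x y x' y' : L} {h : y ^ 2 = x ^ 3 + (a : L) * x ^ 2 + (b : L) * x}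
    {h' : y' ^ 2 = x' ^ 3 + (a : L) * x' ^ 2 + (b : L) * x'} (hx : x = x') (hy : y = y') :
    PA k hb hab x y h = PA k hb hab x' y' h' := by
  subst hx hy
  rfl

lemma PA_inj {x y x' y' : L} {h : y ^ 2 = x ^ 3 + (a : L) * x ^ 2 + (b : L) * x}
    {h' : y' ^ 2 = x' ^ 3 + (a : L) * x' ^ 2 + (b : L) * x'}
    (he : PA k hb hab x y h = PA k hb hab x' y' h') : x = x' ∧ y = y' :=
  (Affine.Point.some.injEq _ _ _ _ _ _).mp he

lemma PA_ne {x y : L} {h : y ^ 2 = x ^ 3 + (a : L) * x ^ 2 + (b : L) * x} :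
    PA k hb hab x y h ≠ 0 := Affine.Point.some_ne_zero _

/-- every point is the point at infinity or given by coordinates -/
lemma PA_cases (hb : b ≠ 0) (hab : a ^ 2 - 4 * b ≠ 0) (P : Pt (WF k a b) L) :
    P = 0 ∨ ∃ (x y : L) (h : y ^ 2 = x ^ 3 + (a : L) * x ^ 2 + (b : L) * x),
      P = PA k hb hab x y h := by
  rcases P with _ | ⟨x, y, hxy⟩
  · left
    rfl
  · right
    have h1 := hxy.1
    rw [Affine.equation_iff', wa1, wa2, wa3, wa4, wa6] at h1
    exact ⟨x, y, by linear_combination h1, rfl⟩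

lemma PA_neg {x y : L} {h : y ^ 2 = x ^ 3 + (a : L) * x ^ 2 + (b : L) * x} :
    -PA k hb hab x y h = PA k hb hab x (-y) (by rw [neg_sq]; exact h) := by
  have h1 : -PA k hb hab x y h = Affine.Point.some x (((WF k a b).baseChange L).toAffine.negY x y)
      ((Affine.nonsingular_neg ..).mpr (nsA hb hab h)) := rfl
  rw [h1]
  refine some_congr _ _ _ rfl ?_
  rw [Affine.negY, wa1, wa3]
  ring

lemma act_PA {F : Type} [Field F] [Algebra k F] (φ : L →ₐ[k] F) {x y : L}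
    {h : y ^ 2 = x ^ 3 + (a : L) * x ^ 2 + (b : L) * x} :
    act (WF k a b) φ (PA k hb hab x y h) = PA k hb hab (φ x) (φ y) (by
      have h1 := congrArg φ h
      simp only [map_add, map_mul, map_pow, map_intCast] at h1
      exact h1) := by
  unfold PA
  rw [act_some']

/-- the point of order two -/
lemma T_eqn {e : L} (he : e ^ 3 + (a : L) * e ^ 2 + (b : L) * e = 0) :
    (0 : L) ^ 2 = e ^ 3 + (a : L) * e ^ 2 + (b : L) * e := by
  rw [he]
  ring

/-- translation by a point of order two -/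
lemma PA_add_T {x y x' y' e l : L} {h : y ^ 2 = x ^ 3 + (a : L) * x ^ 2 + (b : L) * x}
    {h' : y' ^ 2 = x' ^ 3 + (a : L) * x' ^ 2 + (b : L) * x'}
    {he : (0 : L) ^ 2 = e ^ 3 + (a : L) * e ^ 2 + (b : L) * e} (hx : x ≠ e)
    (hl : y = l * (x - e)) (hx' : x' = l ^ 2 - a - x - e) (hy' : y' = -(l * (x' - e))) :
    PA k hb hab x y h + PA k hb hab e 0 he = PA k hb hab x' y' h' := by
  have hxe : x - e ≠ 0 := sub_ne_zero.2 hx
  let _ : DecidableEq L := Classical.decEq L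
  have hsl : ((WF k a b).baseChange L).toAffine.slope x e y 0 = l := by
    rw [Affine.slope_of_X_ne hx, hl, sub_zero, mul_div_cancel_right₀ _ hxe]
  refine Eq.trans (@Affine.Point.add_of_X_ne L _ ((WF k a b).baseChange L).toAffine
    (Classical.decEq L) x e y 0 (nsA hb hab h) (nsA hb hab he) hx) ?_
  refine some_congr _ _ _ ?_ ?_
  · rw [hsl, Affine.addX, wa1, wa2, hx']
    ring
  · rw [hsl, Affine.addY, Affine.negAddY, Affine.negY, Affine.addX, wa1, wa2, wa3, hy', hx', hl]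
    ring

lemma T_self {e : L} {he : (0 : L) ^ 2 = e ^ 3 + (a : L) * e ^ 2 + (b : L) * e} :
    PA k hb hab e 0 he + PA k hb hab e 0 he = 0 := by
  have h1 : PA k hb hab e 0 he = -PA k hb hab e 0 he := by
    rw [PA_neg]
    exact PA_congr rfl neg_zero.symm
  nth_rewrite 2 [h1]
  exact add_neg_cancel _

/-- the points killed by two -/
lemma two_tors {x y : L} {h : y ^ 2 = x ^ 3 + (a : L) * x ^ 2 + (b : L) * x}
    (h2 : PA k hb hab x y h + PA k hb hab x y h = 0) : y = 0 := by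
  have hz : CharZero L := charZero_of_injective_algebraMap (algebraMap k L).injective
  have h1 := eq_neg_of_add_eq_zero_left h2
  rw [PA_neg] at h1
  have h3 := (PA_inj h1).2
  have h4 : (2 : L) * y = 0 := by linear_combination h3
  exact (mul_eq_zero.1 h4).resolve_left two_ne_zero

end

/-! ### the points from the square roots -/

/-- the roots `e1`, `e2` of `T² + a T + b` -/
structure Rt (L : Type) [Field L] (a b : ℤ) (e1 e2 : L) : Prop where
  sum : e1 + e2 = -(a : L)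
  prod : e1 * e2 = (b : L)

lemma Rt.symm {L : Type} [Field L] {a b : ℤ} {e1 e2 : L} (h : Rt L a b e1 e2) :
    Rt L a b e2 e1 := ⟨by rw [add_comm, h.sum], by rw [mul_comm, h.prod]⟩

lemma Rt.map {L F : Type} [Field L] [Field F] {a b : ℤ} {e1 e2 : L} (h : Rt L a b e1 e2)
    (φ : L →+* F) : Rt F a b (φ e1) (φ e2) :=
  ⟨by rw [← map_add, h.sum, map_neg, map_intCast], by rw [← map_mul, h.prod, map_intCast]⟩

section

variable {k : Type} [Field k] [CharZero k] {a b : ℤ} {L : Type} [Field L] [Algebra k L]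
  {e1 e2 : L}

lemma Rt.ne0 (h : Rt L a b e1 e2) (hb : (b : L) ≠ 0) : e1 ≠ 0 := by
  rintro rfl
  apply hb
  rw [← h.prod, zero_mul]

lemma Rt.ne (h : Rt L a b e1 e2) (hab : (a : L) ^ 2 - 4 * b ≠ 0) : e1 ≠ e2 := by
  intro h12
  apply hab
  have h1 := h.sum
  have h2 := h.prod
  rw [← h12] at h1 h2
  linear_combination ((a : L) - 2 * e1) * h1 + 4 * h2

lemma Rt.eqn (h : Rt L a b e1 e2) : e1 ^ 3 + (a : L) * e1 ^ 2 + (b : L) * e1 = 0 := by
  have h1 := h.sum
  have h2 := h.prod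
  linear_combination e1 ^ 2 * h1 - e1 * h2

/-- the square roots -/
structure Sr (L : Type) [Field L] (e1 e2 r0 r1 r2 : L) : Prop where
  q1 : r0 ^ 2 - r1 ^ 2 = e1
  q2 : r0 ^ 2 - r2 ^ 2 = e2

lemma Sr.eqn {r0 r1 r2 : L} (h : Rt L a b e1 e2) (hr : Sr L e1 e2 r0 r1 r2) :
    ((r0 + r1) * (r0 + r2) * (r1 + r2)) ^ 2 = (r0 ^ 2 + r0 * r1 + r0 * r2 + r1 * r2) ^ 3 +
      (a : L) * (r0 ^ 2 + r0 * r1 + r0 * r2 + r1 * r2) ^ 2 +
      (b : L) * (r0 ^ 2 + r0 * r1 + r0 * r2 + r1 * r2) := by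
  have h1 : (a : L) = -(r0 ^ 2 - r1 ^ 2 + (r0 ^ 2 - r2 ^ 2)) := by
    rw [hr.q1, hr.q2]
    linear_combination h.sum
  have h2 : (b : L) = (r0 ^ 2 - r1 ^ 2) * (r0 ^ 2 - r2 ^ 2) := by
    rw [hr.q1, hr.q2, h.prod]
  rw [h1, h2]
  ring

variable (k) in
/-- the point -/
def RP (hb : b ≠ 0) (hab : a ^ 2 - 4 * b ≠ 0) (h : Rt L a b e1 e2) {r0 r1 r2 : L}
    (hr : Sr L e1 e2 r0 r1 r2) : Pt (WF k a b) L :=
  PA k hb hab (r0 ^ 2 + r0 * r1 + r0 * r2 + r1 * r2) ((r0 + r1) * (r0 + r2) * (r1 + r2))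
    (Sr.eqn h hr)

variable (k) in
/-- the point of order two `(e1, 0)` -/
def T1 (hb : b ≠ 0) (hab : a ^ 2 - 4 * b ≠ 0) (h : Rt L a b e1 e2) : Pt (WF k a b) L :=
  PA k hb hab e1 0 (T_eqn h.eqn)

variable (k L a b) in
/-- the point of order two `(0, 0)` -/
def TO (hb : b ≠ 0) (hab : a ^ 2 - 4 * b ≠ 0) : Pt (WF k a b) L :=
  PA k hb hab 0 0 (by ring)

variable {hb : b ≠ 0} {hab : a ^ 2 - 4 * b ≠ 0}

lemma Sr.n1 {r0 r1 r2 : L} (hr : Sr L e1 e2 r0 r1 r2) : Sr L e1 e2 (-r0) (-r1) r2 :=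
  ⟨by rw [neg_sq, neg_sq, hr.q1], by rw [neg_sq, hr.q2]⟩

lemma Sr.n2 {r0 r1 r2 : L} (hr : Sr L e1 e2 r0 r1 r2) : Sr L e1 e2 (-r0) r1 (-r2) :=
  ⟨by rw [neg_sq, hr.q1], by rw [neg_sq, neg_sq, hr.q2]⟩

lemma Sr.n0 {r0 r1 r2 : L} (hr : Sr L e1 e2 r0 r1 r2) : Sr L e1 e2 r0 (-r1) (-r2) :=
  ⟨by rw [neg_sq, hr.q1], by rw [neg_sq, hr.q2]⟩

lemma Sr.symm {r0 r1 r2 : L} (hr : Sr L e1 e2 r0 r1 r2) : Sr L e2 e1 r0 r2 r1 := ⟨hr.q2, hr.q1⟩

/-- sums of the square roots are not zero -/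
lemma Sr.s01 {r0 r1 r2 : L} (hr : Sr L e1 e2 r0 r1 r2) (h : e1 ≠ 0) : r0 + r1 ≠ 0 := by
  intro h1
  apply h
  rw [← hr.q1]
  linear_combination (r0 - r1) * h1

lemma Sr.s12 {r0 r1 r2 : L} (hr : Sr L e1 e2 r0 r1 r2) (h : e1 ≠ e2) : r1 + r2 ≠ 0 := by
  intro h1
  apply h
  rw [← hr.q1, ← hr.q2]
  linear_combination (r2 - r1) * h1

/-- translation by `(e1, 0)` -/
lemma RP_T1 (h : Rt L a b e1 e2) {r0 r1 r2 : L} (hr : Sr L e1 e2 r0 r1 r2) :
    RP k hb hab h hr + T1 k hb hab h = RP k hb hab h hr.n2 := by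
  have hz : CharZero L := charZero_of_injective_algebraMap (algebraMap k L).injective
  have hb' : (b : L) ≠ 0 := by exact_mod_cast hb
  have hab' : (a : L) ^ 2 - 4 * b ≠ 0 := by exact_mod_cast hab
  have s01 := hr.s01 (h.ne0 hb')
  have s12 := hr.s12 (h.ne hab')
  have e := h.sum
  have q1 := hr.q1
  have q2 := hr.q2
  refine PA_add_T (l := r0 + r2) ?_ ?_ ?_ ?_
  · intro h1
    have h2 : (r0 + r1) * (r1 + r2) = 0 := by linear_combination h1 - q1
    exact mul_ne_zero s01 s12 h2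
  · linear_combination (r0 + r2) * (-q1)
  · linear_combination q2 + e
  · linear_combination (r0 + r2) * q1

/-- translation by `(0, 0)` -/
lemma RP_TO (h : Rt L a b e1 e2) {r0 r1 r2 : L} (hr : Sr L e1 e2 r0 r1 r2) :
    RP k hb hab h hr + TO k a b L hb hab = RP k hb hab h hr.n0 := by
  have hz : CharZero L := charZero_of_injective_algebraMap (algebraMap k L).injective
  have hb' : (b : L) ≠ 0 := by exact_mod_cast hb
  have hab' : (a : L) ^ 2 - 4 * b ≠ 0 := by exact_mod_cast hab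
  have s01 := hr.s01 (h.ne0 hb')
  have s02 := hr.symm.s01 (h.symm.ne0 hb')
  have e := h.sum
  have q1 := hr.q1
  have q2 := hr.q2
  refine PA_add_T (l := r1 + r2) ?_ ?_ ?_ ?_
  · intro h1
    have h2 : (r0 + r1) * (r0 + r2) = 0 := by linear_combination h1
    exact mul_ne_zero s01 s02 h2
  · ring
  · linear_combination q1 + q2 + e
  · ring

lemma RP_symm (h : Rt L a b e1 e2) {r0 r1 r2 : L} (hr : Sr L e1 e2 r0 r1 r2) :
    RP k hb hab h hr = RP k hb hab h.symm hr.symm := PA_congr (by ring) (by ring)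

/-- translation by `(e2, 0)` -/
lemma RP_T2 (h : Rt L a b e1 e2) {r0 r1 r2 : L} (hr : Sr L e1 e2 r0 r1 r2) :
    RP k hb hab h hr + T1 k hb hab h.symm = RP k hb hab h hr.n1 := by
  rw [RP_symm, RP_T1]
  exact PA_congr (by ring) (by ring)

/-- the sum of the points of order two -/
lemma T1_T2 (h : Rt L a b e1 e2) : T1 k hb hab h.symm + T1 k hb hab h = TO k a b L hb hab := by
  have hz : CharZero L := charZero_of_injective_algebraMap (algebraMap k L).injective
  have hab' : (a : L) ^ 2 - 4 * b ≠ 0 := by exact_mod_cast hab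
  have e := h.sum
  refine PA_add_T (l := 0) (h.ne hab').symm ?_ ?_ ?_
  · ring
  · linear_combination e
  · ring

/-- zero or the point, according to the sign -/
def FT {A : Type} [AddCommGroup A] (T : A) (n : ℤ) : A := if n = 1 then 0 else T

lemma FT_one {A : Type} [AddCommGroup A] (T : A) : FT T 1 = 0 := if_pos rfl

lemma FT_neg {A : Type} [AddCommGroup A] (T : A) : FT T (-1) = T := if_neg (by norm_num)

lemma FT_mul {A : Type} [AddCommGroup A] {T : A} (hT : T + T = 0) {m n : ℤ}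
    (hm : m = 1 ∨ m = -1) (hn : n = 1 ∨ n = -1) : FT T (m * n) = FT T m + FT T n := by
  rcases hm with rfl | rfl <;> rcases hn with rfl | rfl
  · rw [one_mul, FT_one, add_zero]
  · rw [one_mul, FT_one, zero_add]
  · rw [mul_one, FT_one, add_zero]
  · rw [neg_mul_neg, one_mul, FT_one, FT_neg, hT]

/-- the translation of a point -/
lemma RP_tr (h : Rt L a b e1 e2) {r0 r1 r2 : L} (hr : Sr L e1 e2 r0 r1 r2) {m n : ℤ}
    (hm : m = 1 ∨ m = -1) (hn : n = 1 ∨ n = -1) {r0' r1' r2' : L} (hr' : Sr L e1 e2 r0' r1' r2')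
    (h0 : r0' = (m : L) * n * r0) (h1 : r1' = (m : L) * r1) (h2 : r2' = (n : L) * r2) :
    RP k hb hab h hr' = RP k hb hab h hr + (FT (T1 k hb hab h.symm) m + FT (T1 k hb hab h) n) := by
  subst h0 h1 h2
  rcases hm with rfl | rfl <;> rcases hn with rfl | rfl
  · rw [FT_one, FT_one, add_zero, add_zero]
    exact PA_congr (by push_cast; ring) (by push_cast; ring)
  · rw [FT_one, FT_neg, zero_add, RP_T1]
    exact PA_congr (by push_cast; ring) (by push_cast; ring)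
  · rw [FT_one, FT_neg, add_zero, RP_T2]
    exact PA_congr (by push_cast; ring) (by push_cast; ring)
  · rw [FT_neg, FT_neg, T1_T2, RP_TO]
    exact PA_congr (by push_cast; ring) (by push_cast; ring)

end

end Pool.Agent.L0h23.SZ
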