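import Pool.Agent.L0h23.SZ.Coz

/-!
# General 2-coverings of `y² = x³ + a x² + b x`: local triviality
-/

set_option autoImplicit false
set_option linter.unusedSectionVars false

namespace Pool.Agent.L0h23.SZ

open WeierstrassCurve Pool.Agent.TH841.SH.D Pool.Agent.Y698.SG.Cv

/-- `u + v T` is a square modulo `T ^ 2 + a T + b` -/
def SqZ (L : Type) [Field L] (a b : ℤ) (u v : L) : Prop :=
  ∃ g h : L, u = g ^ 2 - b * h ^ 2 ∧ v = 2 * g * h - a * h ^ 2

/-- `X - T = (u + v T)(g + h T) ^ 2` modulo `T ^ 2 + a T + b` for a point `(X, Y)`, `Y ≠ 0`, of the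
curve -/
def PtZ (L : Type) [Field L] (a b : ℤ) (u v : L) : Prop :=
  ∃ X Y g h : L, Y ≠ 0 ∧ Y ^ 2 = X * (X ^ 2 + a * X + b) ∧
    X = u * (g ^ 2 - b * h ^ 2) - b * v * (2 * g * h - a * h ^ 2) ∧
    -1 = u * (2 * g * h - a * h ^ 2) + v * (g ^ 2 - b * h ^ 2) - a * v * (2 * g * h - a * h ^ 2)

/-- the classes of `O`, of `(0, 0)` and of the points with `Y ≠ 0` -/
def LocZ (L : Type) [Field L] (a b : ℤ) (u v : L) : Prop :=
  SqZ L a b u v ∨ SqZ L a b (b * v) (a * v - u) ∨ PtZ L a b u v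

lemma SqZ.map {L F : Type} [Field L] [Field F] {a b : ℤ} {u v : L} (h : SqZ L a b u v)
    (φ : L →+* F) : SqZ F a b (φ u) (φ v) := by
  obtain ⟨g, h, h1, h2⟩ := h
  refine ⟨φ g, φ h, ?_, ?_⟩
  · rw [h1]
    simp only [map_sub, map_mul, map_pow, map_intCast]
  · rw [h2]
    simp only [map_sub, map_mul, map_pow, map_intCast, map_ofNat]

section
variable {K : Type} [Field K] [CharZero K] {a b : ℤ}
  {u v e1 e2 s1 s2 : AlgebraicClosure K} {hb : b ≠ 0} {hab : a ^ 2 - 4 * b ≠ 0}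

lemma act_cz {F : Type} [Field F] [Algebra K F] (ι : AlgebraicClosure K →ₐ[K] F)
    (h : Rs (AlgebraicClosure K) a b u v e1 e2 s1 s2) (h' : Rt F a b (ι e1) (ι e2))
    {σ : Gal K} {m n : ℤ}
    (hm : m = 1 ∨ m = -1) (hn : n = 1 ∨ n = -1) (hF : Fx e1 e2 s1 s2 σ m n) :
    act (WF K a b) ι (cz hb hab h σ) =
      FT (T1 K hb hab h'.symm) m + FT (T1 K hb hab h') n := by
  rw [cz_eq h hm hn hF, map_add, act_FT, act_FT, act_T1 ι h.rt h' rfl,
    act_T1 ι h.rt.symm h'.symm rfl]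

lemma Fx.map {F : Type} [Field F] [Algebra K F] (ι : AlgebraicClosure K →ₐ[K] F) {σ : Gal K}
    {m n : ℤ} (hF : Fx e1 e2 s1 s2 σ m n) {τ : F → F} (hτ : ∀ x, τ (ι x) = ι (σ x)) :
    Fx (ι e1) (ι e2) (ι s1) (ι s2) τ m n := by
  rcases hF with ⟨f1, f2, f3, f4⟩ | ⟨f1, f2, f3, f4⟩
  · left
    refine ⟨by rw [hτ, f1], by rw [hτ, f2], ?_, ?_⟩
    · rw [hτ, f3, map_mul, map_intCast]
    · rw [hτ, f4, map_mul, map_intCast]
  · right
    refine ⟨by rw [hτ, f1], by rw [hτ, f2], ?_, ?_⟩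
    · rw [hτ, f3, map_mul, map_intCast]
    · rw [hτ, f4, map_mul, map_intCast]

/-- the geometric form -/
lemma loc_pt {F : Type} [Field F] [Algebra K F] (ι : AlgebraicClosure K →ₐ[K] F)
    (h : Rs (AlgebraicClosure K) a b u v e1 e2 s1 s2) (h' : Rt F a b (ι e1) (ι e2))
    {r0 r1 r2 : F} (hr : Sr F (ι e1) (ι e2) r0 r1 r2) (τ : F →ₐ[K] F) {σ : Gal K} {m n : ℤ}
    (hm : m = 1 ∨ m = -1) (hn : n = 1 ∨ n = -1) (hF : Fx e1 e2 s1 s2 σ m n)
    (h0 : τ r0 = m * n * r0)
    (h12 : (τ r1 = m * r1 ∧ τ r2 = n * r2) ∨ (τ r2 = m * r1 ∧ τ r1 = n * r2)) :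
    act (WF K a b) ι (cz hb hab h σ) =
      act (WF K a b) τ (RP K hb hab h' hr) - RP K hb hab h' hr := by
  have hF0 : CharZero F := charZero_of_injective_algebraMap (algebraMap K F).injective
  have hm2 : (m : F) ^ 2 = 1 := by
    rcases hm with rfl | rfl <;> norm_num
  have hn2 : (n : F) ^ 2 = 1 := by
    rcases hn with rfl | rfl <;> norm_num
  have hr' : Sr F (ι e1) (ι e2) (m * n * r0) (m * r1) (n * r2) := by
    refine ⟨?_, ?_⟩
    · rw [mul_pow, mul_pow, mul_pow, hm2, hn2, one_mul, one_mul, one_mul]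
      exact hr.q1
    · rw [mul_pow, mul_pow, mul_pow, hm2, hn2, one_mul, one_mul, one_mul]
      exact hr.q2
  rw [act_cz ι h h' hm hn hF]
  have h1 := RP_tr (k := K) (hb := hb) (hab := hab) h' hr hm hn hr' rfl rfl rfl
  have h2 : act (WF K a b) τ (RP K hb hab h' hr) = RP K hb hab h' hr' := by
    unfold RP
    rw [act_PA]
    rcases h12 with ⟨h3, h4⟩ | ⟨h3, h4⟩
    · refine PA_congr ?_ ?_
      · simp only [map_add, map_mul, map_pow, h0, h3, h4]
      · simp only [map_add, map_mul, h0, h3, h4]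
    · refine PA_congr ?_ ?_
      · simp only [map_add, map_mul, map_pow, h0, h3, h4]
        ring
      · simp only [map_add, map_mul, h0, h3, h4]
        ring
  rw [h2, h1]
  abel

/-- compatibility with the roots -/
def Cmp {L : Type} [Field L] (e1 e2 G1 G2 : AlgebraicClosure L) : Prop :=
  ∀ τ : Gal L, (τ e1 = e1 → τ e2 = e2 → τ G1 = G1 ∧ τ G2 = G2) ∧
    (τ e1 = e2 → τ e2 = e1 → τ G1 = G2 ∧ τ G2 = G1)

/-- local triviality from a point -/
lemma loc_gen {L : Type} [Field L] [Algebra K L]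
    (h : Rs (AlgebraicClosure K) a b u v e1 e2 s1 s2)
    (hu : ∀ σ : Gal K, σ u = u) (hv : ∀ σ : Gal K, σ v = v)
    (ι : AlgebraicClosure K →ₐ[K] AlgebraicClosure L) {x0 y0 : L} {G1 G2 : AlgebraicClosure L}
    (hG : Cmp (ι e1) (ι e2) G1 G2)
    (q1 : (ι s1 * G1) ^ 2 = algebraMap L (AlgebraicClosure L) x0 - ι e1)
    (q2 : (ι s2 * G2) ^ 2 = algebraMap L (AlgebraicClosure L) x0 - ι e2)
    (n1 : G1 ≠ 0) (n2 : G2 ≠ 0) (hy : y0 ^ 2 = x0 * (x0 ^ 2 + (a : L) * x0 + (b : L))) :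
    ∃ P : Pt (WF K a b) (AlgebraicClosure L), ∀ (τ : Gal L) (σ : Gal K),
      (∀ x, τ (ι x) = ι (σ x)) →
      act (WF K a b) ι (cz hb hab h σ) =
        act (WF K a b) (τ.toAlgHom.restrictScalars K) P - P := by
  have hF0 : CharZero L := charZero_of_injective_algebraMap (algebraMap K L).injective
  have h' : Rt (AlgebraicClosure L) a b (ι e1) (ι e2) := h.rt.map ι.toRingHom
  have hs1 : ι s1 ≠ 0 := (map_ne_zero ι).2 h.z1
  have hs2 : ι s2 ≠ 0 := (map_ne_zero ι).2 h.z2
  obtain ⟨r1, hr1⟩ : ∃ r1, r1 = ι s1 * G1 := ⟨_, rfl⟩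
  obtain ⟨r2, hr2⟩ : ∃ r2, r2 = ι s2 * G2 := ⟨_, rfl⟩
  have z1 : r1 ≠ 0 := by rw [hr1]; exact mul_ne_zero hs1 n1
  have z2 : r2 ≠ 0 := by rw [hr2]; exact mul_ne_zero hs2 n2
  obtain ⟨r0, hr0⟩ : ∃ r0, r0 = algebraMap L (AlgebraicClosure L) y0 / (r1 * r2) := ⟨_, rfl⟩
  rw [← hr1] at q1
  rw [← hr2] at q2
  have q0 : r0 ^ 2 = algebraMap L (AlgebraicClosure L) x0 := by
    have h1 := congrArg (algebraMap L (AlgebraicClosure L)) hy
    simp only [map_add, map_mul, map_pow, map_intCast] at h1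
    rw [hr0, div_pow, h1, div_eq_iff (pow_ne_zero 2 (mul_ne_zero z1 z2)), mul_pow, q1, q2]
    have e1 := h'.sum
    have e2 := h'.prod
    linear_combination (algebraMap L (AlgebraicClosure L) x0) ^ 2 * e1 -
      (algebraMap L (AlgebraicClosure L) x0) * e2
  have hr : Sr (AlgebraicClosure L) (ι e1) (ι e2) r0 r1 r2 :=
    ⟨by rw [q0, q1]; ring, by rw [q0, q2]; ring⟩
  refine ⟨RP K hb hab h' hr, fun τ σ hτ => ?_⟩
  obtain ⟨m, n, hm, hn, hF⟩ := h.fx (σ : AlgebraicClosure K →+* AlgebraicClosure K) (hu σ) (hv σ)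
  have hF : Fx e1 e2 s1 s2 σ m n := hF
  have hFF := hF.map ι (τ := τ) hτ
  have hint : ∀ k : ℤ, τ ((k : ℤ) : AlgebraicClosure L) = (k : AlgebraicClosure L) :=
    fun k => map_intCast τ k
  have hm2 : (m : AlgebraicClosure L) ^ 2 = 1 := by
    rcases hm with rfl | rfl <;> norm_num
  have hn2 : (n : AlgebraicClosure L) ^ 2 = 1 := by
    rcases hn with rfl | rfl <;> norm_num
  have h12 : (τ r1 = m * r1 ∧ τ r2 = n * r2) ∨ (τ r2 = m * r1 ∧ τ r1 = n * r2) := by
    rcases hFF with ⟨f1, f2, f3, f4⟩ | ⟨f1, f2, f3, f4⟩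
    · left
      obtain ⟨g1, g2⟩ := (hG τ).1 f1 f2
      constructor
      · rw [hr1, map_mul, f3, g1]; ring
      · rw [hr2, map_mul, f4, g2]; ring
    · right
      obtain ⟨g1, g2⟩ := (hG τ).2 f1 f2
      constructor
      · rw [hr2, hr1, map_mul, f3, g2]; ring
      · rw [hr1, hr2, map_mul, f4, g1]; ring
  have h0 : τ r0 = m * n * r0 := by
    have h3 : τ r1 * τ r2 = m * n * (r1 * r2) := by
      rcases h12 with ⟨f1, f2⟩ | ⟨f1, f2⟩ <;> rw [f1, f2] <;> ring
    have hmn : (m : AlgebraicClosure L) * n ≠ 0 := by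
      rcases hm with rfl | rfl <;> rcases hn with rfl | rfl <;> norm_num
    rw [hr0, map_div₀, map_mul, h3, τ.commutes]
    rw [div_eq_iff (mul_ne_zero hmn (mul_ne_zero z1 z2))]
    field_simp
    rw [hm2, hn2]
    ring
  exact loc_pt ι h h' hr (τ.toAlgHom.restrictScalars K) hm hn hF h0 h12

lemma cmp_lin {L : Type} [Field L] {e1 e2 : AlgebraicClosure L} (g h : L) :
    Cmp e1 e2 (algebraMap L (AlgebraicClosure L) g + algebraMap L (AlgebraicClosure L) h * e1)
      (algebraMap L (AlgebraicClosure L) g + algebraMap L (AlgebraicClosure L) h * e2) := by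
  intro τ
  constructor
  · intro h1 h2
    constructor
    · rw [map_add, map_mul, τ.commutes, τ.commutes, h1]
    · rw [map_add, map_mul, τ.commutes, τ.commutes, h2]
  · intro h1 h2
    constructor
    · rw [map_add, map_mul, τ.commutes, τ.commutes, h1]
    · rw [map_add, map_mul, τ.commutes, τ.commutes, h2]

lemma Cmp.div {L : Type} [Field L] {e1 e2 G1 G2 H1 H2 : AlgebraicClosure L}
    (hG : Cmp e1 e2 G1 G2) (hH : Cmp e1 e2 H1 H2) : Cmp e1 e2 (G1 / H1) (G2 / H2) := by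
  intro τ
  constructor
  · intro h1 h2
    obtain ⟨a1, a2⟩ := (hG τ).1 h1 h2
    obtain ⟨b1, b2⟩ := (hH τ).1 h1 h2
    constructor
    · rw [map_div₀, a1, b1]
    · rw [map_div₀, a2, b2]
  · intro h1 h2
    obtain ⟨a1, a2⟩ := (hG τ).2 h1 h2
    obtain ⟨b1, b2⟩ := (hH τ).2 h1 h2
    constructor
    · rw [map_div₀, a1, b1]
    · rw [map_div₀, a2, b2]

lemma rt_sq {L : Type} [Field L] {e1 e2 : L} (h : Rt L a b e1 e2) :
    e1 ^ 2 = -(a : L) * e1 - (b : L) := by
  linear_combination e1 * h.sum - h.prod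

end

section
variable {K : Type} [Field K] [CharZero K] {a b : ℤ} {u0 v0 : K}
  {e1 e2 s1 s2 : AlgebraicClosure K} {hb : b ≠ 0} {hab : a ^ 2 - 4 * b ≠ 0}

/-- the local triviality -/
theorem loc_triv {L : Type} [Field L] [Algebra K L]
    (h : Rs (AlgebraicClosure K) a b (algebraMap K _ u0) (algebraMap K _ v0) e1 e2 s1 s2)
    (hl : LocZ L a b (algebraMap K L u0) (algebraMap K L v0)) :
    LocTriv (WF K a b) L (cz hb hab h) := by
  have hF0 : CharZero L := charZero_of_injective_algebraMap (algebraMap K L).injective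
  have hu : ∀ σ : Gal K, σ (algebraMap K (AlgebraicClosure K) u0) = algebraMap K _ u0 :=
    fun σ => σ.commutes u0
  have hv : ∀ σ : Gal K, σ (algebraMap K (AlgebraicClosure K) v0) = algebraMap K _ v0 :=
    fun σ => σ.commutes v0
  intro ι
  have h' : Rt (AlgebraicClosure L) a b (ι e1) (ι e2) := h.rt.map ι.toRingHom
  have hιu : ι (algebraMap K _ u0) = algebraMap L (AlgebraicClosure L) (algebraMap K L u0) := by
    rw [ι.commutes, ← IsScalarTower.algebraMap_apply]
  have hιv : ι (algebraMap K _ v0) = algebraMap L (AlgebraicClosure L) (algebraMap K L v0) := by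
    rw [ι.commutes, ← IsScalarTower.algebraMap_apply]
  have hq1 : (ι s1) ^ 2 = algebraMap L (AlgebraicClosure L) (algebraMap K L u0) +
      algebraMap L (AlgebraicClosure L) (algebraMap K L v0) * ι e1 := by
    rw [← map_pow, h.q1, map_add, map_mul, hιu, hιv]
  have hq2 : (ι s2) ^ 2 = algebraMap L (AlgebraicClosure L) (algebraMap K L u0) +
      algebraMap L (AlgebraicClosure L) (algebraMap K L v0) * ι e2 := by
    rw [← map_pow, h.q2, map_add, map_mul, hιu, hιv]
  have hs1 : ι s1 ≠ 0 := (map_ne_zero ι).2 h.z1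
  have hs2 : ι s2 ≠ 0 := (map_ne_zero ι).2 h.z2
  generalize algebraMap K L u0 = u at hl hq1 hq2
  generalize algebraMap K L v0 = v at hl hq1 hq2
  have t1 := rt_sq h'
  have t2 := rt_sq h'.symm
  rcases hl with ⟨g, k, hg, hk⟩ | ⟨g, k, hg, hk⟩ | ⟨X, Y, g, k, hY, hXY, hg, hk⟩
  · -- squares
    have hg' := congrArg (algebraMap L (AlgebraicClosure L)) hg
    have hk' := congrArg (algebraMap L (AlgebraicClosure L)) hk
    simp only [map_sub, map_mul, map_pow, map_intCast, map_ofNat] at hg' hk'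
    obtain ⟨G1, hG1⟩ : ∃ G1, G1 = algebraMap L (AlgebraicClosure L) g +
      algebraMap L (AlgebraicClosure L) k * ι e1 := ⟨_, rfl⟩
    obtain ⟨G2, hG2⟩ : ∃ G2, G2 = algebraMap L (AlgebraicClosure L) g +
      algebraMap L (AlgebraicClosure L) k * ι e2 := ⟨_, rfl⟩
    have hc : Cmp (ι e1) (ι e2) G1 G2 := by rw [hG1, hG2]; exact cmp_lin g k
    obtain ⟨m1, hm1, hm1'⟩ := pm_of (x := ι s1) (s := G1) (by
      rw [hq1, hG1, hg', hk']
      linear_combination -(algebraMap L (AlgebraicClosure L) k) ^ 2 * t1)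
    obtain ⟨m2, hm2, hm2'⟩ := pm_of (x := ι s2) (s := G2) (by
      rw [hq2, hG2, hg', hk']
      linear_combination -(algebraMap L (AlgebraicClosure L) k) ^ 2 * t2)
    have z1 : G1 ≠ 0 := by
      rintro h0
      rw [h0, mul_zero] at hm1'
      exact hs1 hm1'
    have z2 : G2 ≠ 0 := by
      rintro h0
      rw [h0, mul_zero] at hm2'
      exact hs2 hm2'
    -- the signs
    have hsg : ∀ (τ : Gal L) (σ : Gal K), (∀ x, τ (ι x) = ι (σ x)) → ∀ m n : ℤ,
        (m = 1 ∨ m = -1) → (n = 1 ∨ n = -1) → Fx e1 e2 s1 s2 σ m n →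
        (τ (ι e1) = ι e1 ∧ τ (ι e2) = ι e2 ∧ m = 1 ∧ n = 1) ∨
        (τ (ι e1) = ι e2 ∧ τ (ι e2) = ι e1 ∧ m = m1 * m2 ∧ n = m1 * m2) := by
      intro τ σ hτ m n hm hn hF
      have hFF := hF.map ι (τ := τ) hτ
      have hint : ∀ k : ℤ, τ ((k : ℤ) : AlgebraicClosure L) = (k : AlgebraicClosure L) :=
        fun k => map_intCast τ k
      have can : ∀ {G : AlgebraicClosure L}, G ≠ 0 → ∀ {x y : ℤ},
          (x : AlgebraicClosure L) * G = y * G → x = y := by
        intro G hG x y hxy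
        exact_mod_cast mul_right_cancel₀ hG hxy
      rcases hFF with ⟨f1, f2, f3, f4⟩ | ⟨f1, f2, f3, f4⟩
      · left
        obtain ⟨g1, g2⟩ := (hc τ).1 f1 f2
        refine ⟨f1, f2, ?_, ?_⟩
        · apply can hs1
          rw [← f3, Int.cast_one, one_mul, hm1', map_mul, hint, g1]
        · apply can hs2
          rw [← f4, Int.cast_one, one_mul, hm2', map_mul, hint, g2]
      · right
        obtain ⟨g1, g2⟩ := (hc τ).2 f1 f2
        have sq1 : (m1 : AlgebraicClosure L) * m1 = 1 := by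
          rcases hm1 with rfl | rfl <;> norm_num
        have sq2 : (m2 : AlgebraicClosure L) * m2 = 1 := by
          rcases hm2 with rfl | rfl <;> norm_num
        refine ⟨f1, f2, ?_, ?_⟩
        · apply can hs1
          rw [← f3, hm2', hm1', map_mul, hint, g2]
          push_cast
          linear_combination (-(m2 : AlgebraicClosure L) * G1) * sq1
        · apply can hs2
          rw [← f4, hm1', hm2', map_mul, hint, g1]
          push_cast
          linear_combination (-(m1 : AlgebraicClosure L) * G2) * sq2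
    have hmm : m1 * m2 = 1 ∨ m1 * m2 = -1 := by
      rcases hm1 with rfl | rfl <;> rcases hm2 with rfl | rfl <;> norm_num
    rcases hmm with hmm | hmm
    · -- the cocycle vanishes
      refine ⟨0, fun τ σ hτ => ?_⟩
      obtain ⟨m, n, hm, hn, hF⟩ := h.fx (σ : AlgebraicClosure K →+* AlgebraicClosure K)
        (hu σ) (hv σ)
      have hF : Fx e1 e2 s1 s2 σ m n := hF
      rw [act_cz ι h h' hm hn hF, map_zero, sub_zero]
      rcases hsg τ σ hτ m n hm hn hF with ⟨-, -, h3, h4⟩ | ⟨-, -, h3, h4⟩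
      · rw [h3, h4, FT_one, FT_one, add_zero]
      · rw [h3, h4, hmm, FT_one, FT_one, add_zero]
    · refine ⟨T1 K hb hab h', fun τ σ hτ => ?_⟩
      obtain ⟨m, n, hm, hn, hF⟩ := h.fx (σ : AlgebraicClosure K →+* AlgebraicClosure K)
        (hu σ) (hv σ)
      have hF : Fx e1 e2 s1 s2 σ m n := hF
      rw [act_cz ι h h' hm hn hF]
      rcases hsg τ σ hτ m n hm hn hF with ⟨f1, f2, h3, h4⟩ | ⟨f1, f2, h3, h4⟩
      · rw [h3, h4, FT_one, FT_one, add_zero,
          act_T1 (τ.toAlgHom.restrictScalars K) h' h' f1, sub_self]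
      · rw [h3, h4, hmm, FT_neg, FT_neg,
          act_T1 (τ.toAlgHom.restrictScalars K) h' h'.symm f1]
        have h5 : -T1 K hb hab h' = T1 K hb hab h' := neg_eq_of_add_eq_zero_left (T1_two h')
        rw [sub_eq_add_neg, h5]
  · -- the class of `(0, 0)`
    have hg' := congrArg (algebraMap L (AlgebraicClosure L)) hg
    have hk' := congrArg (algebraMap L (AlgebraicClosure L)) hk
    simp only [map_sub, map_mul, map_pow, map_intCast, map_ofNat] at hg' hk'
    have hb' : (b : AlgebraicClosure L) ≠ 0 := by exact_mod_cast hb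
    have ne1 := h'.ne0 hb'
    have ne2 := h'.symm.ne0 hb'
    obtain ⟨G1, hG1⟩ : ∃ G1, G1 = algebraMap L (AlgebraicClosure L) g +
      algebraMap L (AlgebraicClosure L) k * ι e1 := ⟨_, rfl⟩
    obtain ⟨G2, hG2⟩ : ∃ G2, G2 = algebraMap L (AlgebraicClosure L) g +
      algebraMap L (AlgebraicClosure L) k * ι e2 := ⟨_, rfl⟩
    have hc : Cmp (ι e1) (ι e2) G1 G2 := by rw [hG1, hG2]; exact cmp_lin g k
    have hc2 : Cmp (ι e1) (ι e2) (ι s1 ^ 2) (ι s2 ^ 2) := by rw [hq1, hq2]; exact cmp_lin u v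
    have k1 : G1 ^ 2 = -(ι e1) * (ι s1) ^ 2 := by
      rw [hq1, hG1]
      linear_combination -hg' - (ι e1) * hk' +
        ((algebraMap L (AlgebraicClosure L) k) ^ 2 + algebraMap L (AlgebraicClosure L) v) * t1
    have k2 : G2 ^ 2 = -(ι e2) * (ι s2) ^ 2 := by
      rw [hq2, hG2]
      linear_combination -hg' - (ι e2) * hk' +
        ((algebraMap L (AlgebraicClosure L) k) ^ 2 + algebraMap L (AlgebraicClosure L) v) * t2
    refine loc_gen h hu hv ι (x0 := 0) (y0 := 0) (hc.div hc2) ?_ ?_ ?_ ?_ ?_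
    · rw [mul_pow, div_pow, k1, map_zero]
      field_simp
      ring
    · rw [mul_pow, div_pow, k2, map_zero]
      field_simp
      ring
    · apply div_ne_zero _ (pow_ne_zero 2 hs1)
      intro h0
      rw [h0] at k1
      apply mul_ne_zero (neg_ne_zero.2 ne1) (pow_ne_zero 2 hs1)
      rw [← k1]
      ring
    · apply div_ne_zero _ (pow_ne_zero 2 hs2)
      intro h0
      rw [h0] at k2
      apply mul_ne_zero (neg_ne_zero.2 ne2) (pow_ne_zero 2 hs2)
      rw [← k2]
      ring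
    · ring
  · -- a point
    have hg' := congrArg (algebraMap L (AlgebraicClosure L)) hg
    have hk' := congrArg (algebraMap L (AlgebraicClosure L)) hk
    have hXY' := congrArg (algebraMap L (AlgebraicClosure L)) hXY
    simp only [map_sub, map_add, map_mul, map_pow, map_intCast, map_ofNat, map_neg, map_one]
      at hg' hk' hXY'
    obtain ⟨G1, hG1⟩ : ∃ G1, G1 = algebraMap L (AlgebraicClosure L) g +
      algebraMap L (AlgebraicClosure L) k * ι e1 := ⟨_, rfl⟩
    obtain ⟨G2, hG2⟩ : ∃ G2, G2 = algebraMap L (AlgebraicClosure L) g +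
      algebraMap L (AlgebraicClosure L) k * ι e2 := ⟨_, rfl⟩
    have hc : Cmp (ι e1) (ι e2) G1 G2 := by rw [hG1, hG2]; exact cmp_lin g k
    have hY' : algebraMap L (AlgebraicClosure L) Y ≠ 0 := (map_ne_zero _).2 hY
    have k1 : (ι s1 * G1) ^ 2 = algebraMap L (AlgebraicClosure L) X - ι e1 := by
      rw [mul_pow, hq1, hG1, hg']
      generalize algebraMap L (AlgebraicClosure L) u = U at *
      generalize algebraMap L (AlgebraicClosure L) v = V at *
      generalize algebraMap L (AlgebraicClosure L) g = G at *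
      generalize algebraMap L (AlgebraicClosure L) k = H at *
      linear_combination ((U + V * ι e1) * H ^ 2 + V * (2 * G * H - a * H ^ 2)) * t1 -
        ι e1 * hk'
    have k2 : (ι s2 * G2) ^ 2 = algebraMap L (AlgebraicClosure L) X - ι e2 := by
      rw [mul_pow, hq2, hG2, hg']
      generalize algebraMap L (AlgebraicClosure L) u = U at *
      generalize algebraMap L (AlgebraicClosure L) v = V at *
      generalize algebraMap L (AlgebraicClosure L) g = G at *
      generalize algebraMap L (AlgebraicClosure L) k = H at *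
      linear_combination ((U + V * ι e2) * H ^ 2 + V * (2 * G * H - a * H ^ 2)) * t2 -
        ι e2 * hk'
    have hprod : (algebraMap L (AlgebraicClosure L) Y) ^ 2 =
        algebraMap L (AlgebraicClosure L) X * ((ι s1 * G1) ^ 2 * (ι s2 * G2) ^ 2) := by
      rw [k1, k2, hXY']
      linear_combination (algebraMap L (AlgebraicClosure L) X) ^ 2 * h'.sum -
        (algebraMap L (AlgebraicClosure L) X) * h'.prod
    refine loc_gen h hu hv ι (x0 := X) (y0 := Y) hc k1 k2 ?_ ?_ hXY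
    · intro h0
      rw [h0] at hprod
      apply pow_ne_zero 2 hY'
      rw [hprod]
      ring
    · intro h0
      rw [h0] at hprod
      apply pow_ne_zero 2 hY'
      rw [hprod]
      ring

end

end Pool.Agent.L0h23.SZ
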